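import Pool.Agent.Helper1.Cayley.SqSub

/-!
# Sets which are independent modulo the squares
-/

set_option autoImplicit false

namespace Pool.Agent.Helper1.Cayley

universe u

section

variable {G : Type u} [Group G]

/-- The nontrivial squares of different elements of `T` are different, also up to inversion. -/
def SqD (T : Set G) : Prop :=
  ∀ h ∈ T, ∀ h' ∈ T, h ≠ h' → (h * h = h' * h' ∨ h * h = (h' * h')⁻¹) → h * h = 1

theorem pair_of_sum {T : Set G} (hT : LinearIndepOn (ZMod 2) (toV (G := G)) T) {a b c d : G}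
    (ha : a ∈ T) (hb : b ∈ T) (hc : c ∈ T) (hd : d ∈ T) (h : toV a + toV b = toV c + toV d) :
    (a = b ∧ c = d) ∨ (a = c ∧ b = d) ∨ (a = d ∧ b = c) := by
  have hinj := hT.injOn
  by_cases hab : a = b
  · subst hab
    rw [vsp_add_self] at h
    left
    refine ⟨rfl, hinj hc hd ?_⟩
    rw [← vsp_add_self (toV d)] at h
    exact (add_right_cancel h).symm
  by_cases hac : a = c
  · subst hac
    exact Or.inr (Or.inl ⟨rfl, hinj hb hd (add_left_cancel h)⟩)
  by_cases had : a = d
  · subst had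
    rw [add_comm (toV c)] at h
    exact Or.inr (Or.inr ⟨rfl, hinj hb hc (add_left_cancel h)⟩)
  exfalso
  apply hT.notMem_span ha
  have h1 : toV a = toV c + toV d + toV b := by
    rw [← h, add_assoc, vsp_add_self, add_zero]
  rw [h1]
  refine Submodule.add_mem _ (Submodule.add_mem _ ?_ ?_) ?_
  · exact Submodule.subset_span ⟨c, ⟨hc, fun h => hac h.symm⟩, rfl⟩
  · exact Submodule.subset_span ⟨d, ⟨hd, fun h => had h.symm⟩, rfl⟩
  · exact Submodule.subset_span ⟨b, ⟨hb, fun h => hab h.symm⟩, rfl⟩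

theorem notMem_sqSub {T : Set G} (hT : LinearIndepOn (ZMod 2) (toV (G := G)) T) {a : G}
    (ha : a ∈ T) : a ∉ sqSub G := by
  intro h
  apply hT.notMem_span ha
  rw [toV_eq_zero.mpr h]
  exact Submodule.zero_mem _

theorem one_notMem_of_indep {T : Set G} (hT : LinearIndepOn (ZMod 2) (toV (G := G)) T) :
    (1 : G) ∉ T := fun h => notMem_sqSub hT h (Subgroup.one_mem _)

theorem inv_of_indep {T : Set G} (hT : LinearIndepOn (ZMod 2) (toV (G := G)) T) :
    ∀ b ∈ T, b ^ 3 ≠ 1 → b ^ 2 ∉ T ∧ (b ^ 2)⁻¹ ∉ T := by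
  intro b _ _
  have h1 : b ^ 2 ∈ sqSub G := by rw [pow_two]; exact mul_self_mem b
  exact ⟨fun h => notMem_sqSub hT h h1, fun h => notMem_sqSub hT h (Subgroup.inv_mem _ h1)⟩

theorem toV_of_pm {h s : G} (hs : s = h ∨ s = h⁻¹) : toV s = toV h := by
  rcases hs with rfl | rfl
  · rfl
  · exact toV_inv h

/-- Two different elements of `{h, h⁻¹}`. -/
theorem quotient_of_pm {h s s' : G} (hs : s = h ∨ s = h⁻¹) (hs' : s' = h ∨ s' = h⁻¹)
    (hne : s ≠ s') : s * s'⁻¹ = h * h ∨ s * s'⁻¹ = (h * h)⁻¹ := by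
  rcases hs with rfl | rfl <;> rcases hs' with rfl | rfl
  · exact absurd rfl hne
  · left; rw [inv_inv]
  · right; rw [mul_inv_rev]
  · exact absurd rfl hne

theorem quotient_of_pm' {h s s' : G} (hs : s = h ∨ s = h⁻¹) (hs' : s' = h ∨ s' = h⁻¹) :
    s'⁻¹ * s = 1 ∨ s'⁻¹ * s = h * h ∨ s'⁻¹ * s = (h * h)⁻¹ := by
  rcases hs with rfl | rfl <;> rcases hs' with rfl | rfl
  · left; rw [inv_mul_cancel]
  · right; left; rw [inv_inv]
  · right; right; rw [mul_inv_rev]
  · left; rw [inv_inv, mul_inv_cancel]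

/-- Three factorisations with the same product and labels in the set `T`. -/
theorem base_core {T : Set G} (hT : LinearIndepOn (ZMod 2) (toV (G := G)) T) (hSq : SqD T)
    {t : G} (ht : t ≠ 1) (s s' : Fin 3 → G) (hs : ∀ i, s' i * s i = t)
    (hinj : Function.Injective s)
    (hsT : ∀ i, ∃ h ∈ T, s i = h ∨ s i = h⁻¹) (hsT' : ∀ i, ∃ h ∈ T, s' i = h ∨ s' i = h⁻¹) :
    False := by
  choose l hlT hl using hsT
  choose l' hlT' hl' using hsT'
  have hsum : ∀ i, toV (l' i) + toV (l i) = toV t := by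
    intro i
    rw [← hs i, toV_mul, toV_of_pm (hl i), toV_of_pm (hl' i)]
  -- two indices with the same pair of labels
  have hpair : ∀ i j, i ≠ j → l i = l j → l' i = l' j → l i ≠ l' i → False := by
    intro i j hij h1 h2 h3
    have hne : s i ≠ s j := fun h => hij (hinj h)
    have hj := hl j
    rw [← h1] at hj
    have hj' := hl' j
    rw [← h2] at hj'
    have e1 := quotient_of_pm (hl i) hj hne
    have e2 := quotient_of_pm' hj' (hl' i)
    have e3 : (s' i)⁻¹ * s' j = s i * (s j)⁻¹ := by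
      have h4 := (hs i).trans (hs j).symm
      rw [inv_mul_eq_iff_eq_mul, ← mul_assoc, h4, mul_inv_cancel_right]
    rw [e3] at e2
    have hne1 : s i * (s j)⁻¹ ≠ 1 := fun h => hne (mul_inv_eq_one.mp h)
    have e4 := e2.resolve_left hne1
    have hsq1 : l i * l i = 1 := by
      apply hSq _ (hlT i) _ (hlT' i) h3
      rcases e1 with e1 | e1 <;> rcases e4 with e4 | e4
      · left; rw [← e1, e4]
      · right; rw [← e1, e4]
      · right; rw [← inv_inv (l i * l i), ← e1, e4]
      · left; rw [← inv_inv (l i * l i), ← e1, e4, inv_inv]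
    apply hne1
    rcases e1 with e1 | e1
    · rw [e1, hsq1]
    · rw [e1, hsq1, inv_one]
  by_cases h0 : l' 0 = l 0
  · -- all pairs of labels are diagonal
    have hdiag : ∀ i, l' i = l i := by
      intro i
      have h1 := (hsum i).trans (hsum 0).symm
      rcases pair_of_sum hT (hlT' i) (hlT i) (hlT' 0) (hlT 0) h1 with h | ⟨h2, h3⟩ | ⟨h2, h3⟩
      · exact h.1
      · rw [h2, h3, h0]
      · rw [h2, h3, h0]
    have hsame : ∀ i, s' i = s i := by
      intro i
      have h1 := hl' i
      rw [hdiag i] at h1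
      rcases hl i with h2 | h2 <;> rcases h1 with h3 | h3
      · rw [h2, h3]
      · exact absurd (by rw [← hs i, h2, h3, inv_mul_cancel]) ht
      · exact absurd (by rw [← hs i, h2, h3, mul_inv_cancel]) ht
      · rw [h2, h3]
    have hsq : ∀ i, l i * l i = t ∨ l i * l i = t⁻¹ := by
      intro i
      have h1 := hs i
      rw [hsame i] at h1
      rcases hl i with h2 | h2
      · left; rw [← h1, h2]
      · right; rw [← h1, h2, mul_inv_rev, inv_inv]
    have hlab : ∀ i j, l i = l j := by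
      intro i j
      by_contra hne
      have h1 : l i * l i = 1 := by
        apply hSq _ (hlT i) _ (hlT j) hne
        rcases hsq i with h2 | h2 <;> rcases hsq j with h3 | h3
        · left; rw [h2, h3]
        · right; rw [h2, h3, inv_inv]
        · right; rw [h2, h3]
        · left; rw [h2, h3]
      apply ht
      rcases hsq i with h2 | h2
      · rw [← h2, h1]
      · rw [← inv_inv t, ← h2, h1, inv_one]
    -- three different elements of `{h, h⁻¹}`
    have h01 : (0 : Fin 3) ≠ 1 := by decide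
    have h02 : (0 : Fin 3) ≠ 2 := by decide
    have h12 : (1 : Fin 3) ≠ 2 := by decide
    have e1 := hl 1
    have e2 := hl 2
    rw [hlab 1 0] at e1
    rw [hlab 2 0] at e2
    rcases hl 0 with h3 | h3 <;> rcases e1 with h4 | h4 <;> rcases e2 with h5 | h5
    · exact h01 (hinj (h3.trans h4.symm))
    · exact h01 (hinj (h3.trans h4.symm))
    · exact h02 (hinj (h3.trans h5.symm))
    · exact h12 (hinj (h4.trans h5.symm))
    · exact h12 (hinj (h4.trans h5.symm))
    · exact h02 (hinj (h3.trans h5.symm))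
    · exact h01 (hinj (h3.trans h4.symm))
    · exact h01 (hinj (h3.trans h4.symm))
  · have hnd : ∀ i, l i ≠ l' i := by
      intro i hi
      apply h0
      have h1 := (hsum 0).trans (hsum i).symm
      rcases pair_of_sum hT (hlT' 0) (hlT 0) (hlT' i) (hlT i) h1 with h | ⟨h2, h3⟩ | ⟨h2, h3⟩
      · exact h.1
      · rw [h2, h3, hi]
      · rw [h2, h3, hi]
    have hcase : ∀ i, (l i = l 0 ∧ l' i = l' 0) ∨ (l i = l' 0 ∧ l' i = l 0) := by
      intro i
      have h1 := (hsum i).trans (hsum 0).symm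
      rcases pair_of_sum hT (hlT' i) (hlT i) (hlT' 0) (hlT 0) h1 with h | ⟨h2, h3⟩ | ⟨h2, h3⟩
      · exact absurd h.1.symm (hnd i)
      · exact Or.inl ⟨h3, h2⟩
      · exact Or.inr ⟨h3, h2⟩
    rcases hcase 1 with ⟨h1, h1'⟩ | ⟨h1, h1'⟩
    · exact hpair 1 0 (by decide) h1 h1' (hnd 1)
    · rcases hcase 2 with ⟨h2, h2'⟩ | ⟨h2, h2'⟩
      · exact hpair 2 0 (by decide) h2 h2' (hnd 2)
      · exact hpair 1 2 (by decide) (h1.trans h2.symm) (h1'.trans h2'.symm) (hnd 1)

end

end Pool.Agent.Helper1.Cayley
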