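import Pool.Agent.Helper1.Cayley.Base

/-!
# The dichotomy

Every group either has a set which is a basis modulo the squares, with different squares, or has a
generating set which is independent modulo the squares.
-/

set_option autoImplicit false

namespace Pool.Agent.Helper1.Cayley

universe u

section

variable {G : Type u} [Group G]

theorem sqD_sUnion {c : Set (Set G)} (hc : IsChain (· ⊆ ·) c) (h : ∀ T ∈ c, SqD T) :
    SqD (⋃₀ c) := by
  rintro a ⟨T, hT, haT⟩ b ⟨T', hT', hbT'⟩ hab hsq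
  rcases hc.total hT hT' with h1 | h1
  · exact h T' hT' a (h1 haT) b hbT' hab hsq
  · exact h T hT a haT b (h1 hbT') hab hsq

/-- A maximal set. -/
theorem exists_maximal_set (G : Type u) [Group G] :
    ∃ T : Set G, (LinearIndepOn (ZMod 2) (toV (G := G)) T ∧ SqD T) ∧
      ∀ T' : Set G, T ⊆ T' → (LinearIndepOn (ZMod 2) (toV (G := G)) T' ∧ SqD T') → T' ⊆ T := by
  obtain ⟨T, hT⟩ := zorn_subset {T : Set G | LinearIndepOn (ZMod 2) (toV (G := G)) T ∧ SqD T} (by
    intro c hc hchain
    refine ⟨⋃₀ c, ⟨?_, ?_⟩, fun s hs => Set.subset_sUnion_of_mem hs⟩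
    · exact linearIndepOn_sUnion_of_directed hchain.directedOn fun x hx => (hc hx).1
    · exact sqD_sUnion hchain fun x hx => (hc hx).2)
  exact ⟨T, hT.prop, fun T' h1 h2 => hT.le_of_ge h2 h1⟩

theorem sq_swap {a b : G} (h : a * a = b * b ∨ a * a = (b * b)⁻¹) :
    b * b = a * a ∨ b * b = (a * a)⁻¹ := by
  rcases h with h | h
  · left; exact h.symm
  · right; rw [h, inv_inv]

theorem sq_one {a b : G} (h : a * a = b * b ∨ a * a = (b * b)⁻¹) (hb : b * b = 1) :
    a * a = 1 := by
  rcases h with h | h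
  · rw [h, hb]
  · rw [h, hb, inv_one]

theorem sq_trans {a b c : G} (h : a * a = b * b ∨ a * a = (b * b)⁻¹)
    (h' : b * b = c * c ∨ b * b = (c * c)⁻¹) : a * a = c * c ∨ a * a = (c * c)⁻¹ := by
  rcases h with h | h <;> rcases h' with h' | h'
  · left; rw [h, h']
  · right; rw [h, h']
  · right; rw [h, h']
  · left; rw [h, h', inv_inv]

theorem dichotomy (G : Type u) [Group G] :
    (∃ T : Set G, LinearIndepOn (ZMod 2) (toV (G := G)) T ∧ SqD T ∧
      Subgroup.closure T ⊔ sqSub G = ⊤) ∨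
    ∃ H : Set G, LinearIndepOn (ZMod 2) (toV (G := G)) H ∧ Subgroup.closure H = ⊤ := by
  classical
  obtain ⟨T, ⟨hT, hSq⟩, hmax⟩ := exists_maximal_set G
  let K := Subgroup.closure T
  let M := K ⊔ sqSub G
  by_cases hM : M = ⊤
  · exact Or.inl ⟨T, hT, hSq, hM⟩
  -- squares of the elements outside `M`
  have hout : ∀ x, x ∉ M → x * x ≠ 1 ∧ ∃ h ∈ T, (x * x = h * h ∨ x * x = (h * h)⁻¹) := by
    intro x hx
    have hxT : x ∉ T := fun h => hx (Subgroup.mem_sup_left (Subgroup.subset_closure h))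
    by_contra hcon
    apply hxT
    apply hmax (insert x T) (Set.subset_insert _ _) ⟨?_, ?_⟩ (Set.mem_insert _ _)
    · apply hT.insert
      intro h
      exact hx (toV_mem_span.mp h)
    · have hx1 : ∀ h ∈ T, (x * x = h * h ∨ x * x = (h * h)⁻¹) → x * x = 1 := by
        intro h hh h1
        by_contra h2
        exact hcon ⟨h2, h, hh, h1⟩
      rintro a (rfl | ha) b (rfl | hb) hab hab'
      · exact absurd rfl hab
      · exact hx1 b hb hab'
      · exact sq_one hab' (hx1 a ha (sq_swap hab'))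
      · exact hSq a ha b hb hab hab'
  have hoK : ∀ x, x ∉ M → x * x ∈ K := by
    intro x hx
    obtain ⟨-, h, hh, h1⟩ := hout x hx
    have h2 : h * h ∈ K := K.mul_mem (Subgroup.subset_closure hh) (Subgroup.subset_closure hh)
    rcases h1 with h1 | h1
    · rw [h1]; exact h2
    · rw [h1]; exact K.inv_mem h2
  have hKM : K ≤ M := le_sup_left
  have hsM : sqSub G ≤ M := le_sup_right
  by_cases hsK : sqSub G ≤ K
  · -- extend to a basis
    right
    obtain ⟨b, -, hTb, hspan, hb⟩ := exists_linearIndepOn_extension hT (Set.subset_univ T)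
    refine ⟨b, hb, ?_⟩
    rw [Subgroup.eq_top_iff']
    intro g
    have h1 : toV g ∈ Submodule.span (ZMod 2) (toV '' b) := hspan ⟨g, trivial, rfl⟩
    have h2 := toV_mem_span.mp h1
    have h3 : Subgroup.closure b ⊔ sqSub G ≤ Subgroup.closure b := by
      rw [sup_le_iff]
      exact ⟨le_rfl, le_trans hsK (Subgroup.closure_mono hTb)⟩
    exact h3 h2
  left
  obtain ⟨α, hα⟩ : ∃ α, α ∉ M := by
    by_contra hcon
    push Not at hcon
    exact hM ((Subgroup.eq_top_iff' M).mpr hcon)
  -- conjugation by elements outside `M`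
  have hconj : ∀ x, x ∉ M → ∀ m ∈ M, x⁻¹ * m * x * m ∈ K := by
    intro x hx m hm
    have h1 : x * m ∉ M := fun hc => hx ((M.mul_mem_cancel_right hm).mp hc)
    have h2 := hoK _ h1
    have h3 := hoK _ hx
    have h4 : x⁻¹ * m * x * m = (x * x)⁻¹ * (x * m * (x * m)) := by group
    rw [h4]
    exact K.mul_mem (K.inv_mem h3) h2
  have hnorm1 : ∀ x, x ∉ M → ∀ n ∈ K, x⁻¹ * n * x ∈ K := by
    intro x hx n hn
    have h1 := hconj x hx n (hKM hn)
    exact (K.mul_mem_cancel_right hn).mp h1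
  have hnorm2 : ∀ g : G, ∀ n ∈ K, g⁻¹ * n * g ∈ K := by
    intro g n hn
    by_cases hg : g ∈ M
    · have h1 : α⁻¹ * g ∉ M := by
        intro hc
        have := (M.mul_mem_cancel_right hg).mp hc
        exact hα (M.inv_mem_iff.mp this)
      have h2 := hnorm1 α hα n hn
      have h3 := hnorm1 _ h1 _ h2
      have h4 : (α⁻¹ * g)⁻¹ * (α⁻¹ * n * α) * (α⁻¹ * g) = g⁻¹ * (α * α⁻¹) * n * (α * α⁻¹) * g := by
        group
      have h5 : (α⁻¹ * g)⁻¹ * (α⁻¹ * n * α) * (α⁻¹ * g) = g⁻¹ * n * g := by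
        rw [h4]; group
      rw [h5] at h3
      exact h3
    · exact hnorm1 g hg n hn
  -- an element `m` of the subgroup generated by the squares with square outside `K`
  obtain ⟨g₀, hg₀⟩ : ∃ g₀ : G, g₀ * g₀ ∉ K := by
    by_contra hcon
    push Not at hcon
    exact hsK (sqSub_le hcon)
  have hg₀M : g₀ ∈ M := by
    by_contra hc
    exact hg₀ (hoK _ hc)
  obtain ⟨k, hk, m, hm, hkm⟩ := Subgroup.mem_sup_of_normal_right.mp hg₀M
  have hm2 : m * m ∉ K := by
    intro hc
    apply hg₀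
    have h1 : g₀ * g₀ = k * ((m⁻¹)⁻¹ * k * m⁻¹) * (m * m) := by rw [← hkm]; group
    rw [h1]
    exact K.mul_mem (K.mul_mem hk (hnorm2 _ k hk)) hc
  have hmM : m ∈ M := hsM hm
  -- the index of `M` is two
  have hidx : ∀ x y, x ∉ M → y ∉ M → x * y ∈ M := by
    intro x y hx hy
    by_contra hxy
    apply hm2
    have h1 := hconj x hx m hmM
    have h2 := hconj y hy m hmM
    have h3 := hconj _ hxy m hmM
    have h4 := hnorm2 y _ h1
    have h5 := hnorm2 m⁻¹ _ (K.inv_mem h2)
    have h6 : m * m = ((m⁻¹)⁻¹ * (y⁻¹ * m * y * m)⁻¹ * m⁻¹)⁻¹ *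
        ((y⁻¹ * (x⁻¹ * m * x * m) * y)⁻¹ * ((x * y)⁻¹ * m * (x * y) * m)) := by group
    rw [h6]
    exact K.mul_mem (K.inv_mem h5) (K.mul_mem (K.inv_mem h4) h3)
  obtain ⟨hα1, a, ha, hαa⟩ := hout α hα
  have hαK := hoK α hα
  have ham : toV (a * m) = toV a := by
    rw [toV_mul, toV_eq_zero.mpr hm, add_zero]
  have haK : a ∈ K := Subgroup.subset_closure ha
  -- the square of `a * m` is outside `K`
  have ham2 : (a * m) * (a * m) ∉ K := by
    intro hc
    apply hm2
    have h1 : m * m = ((m⁻¹)⁻¹ * a * m⁻¹)⁻¹ * (a⁻¹ * (a * m * (a * m))) := by group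
    rw [h1]
    exact K.mul_mem (K.inv_mem (hnorm2 _ a haK)) (K.mul_mem (K.inv_mem haK) hc)
  let T₁ : Set G := T \ {a}
  let T' : Set G := insert α (insert (a * m) T₁)
  have hT₁ : LinearIndepOn (ZMod 2) (toV (G := G)) T₁ := hT.mono Set.sdiff_subset
  have hspan1 : toV '' (insert (a * m) T₁) = toV '' T := by
    rw [Set.image_insert_eq, ham, ← Set.image_insert_eq, Set.insert_sdiff_singleton,
      Set.insert_eq_of_mem ha]
  have hT'ind : LinearIndepOn (ZMod 2) (toV (G := G)) T' := by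
    apply LinearIndepOn.insert
    · apply LinearIndepOn.insert hT₁
      rw [ham]
      exact hT.notMem_span ha
    · rw [hspan1]
      intro h
      exact hα (toV_mem_span.mp h)
  have hT₁K : ∀ h ∈ T₁, h * h ∈ K := fun h hh =>
    K.mul_mem (Subgroup.subset_closure hh.1) (Subgroup.subset_closure hh.1)
  -- the element `a * m` has no common square with the others
  have hsep : ∀ h : G, h * h ∈ K → ¬ ((a * m) * (a * m) = h * h ∨
      (a * m) * (a * m) = (h * h)⁻¹) := by
    rintro h hh (hc | hc)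
    · exact ham2 (hc ▸ hh)
    · exact ham2 (hc ▸ K.inv_mem hh)
  have hαT₁ : ∀ h ∈ T₁, (h * h = α * α ∨ h * h = (α * α)⁻¹) → h * h = 1 := by
    intro h hh h1
    have h2 := sq_trans h1 hαa
    exact hSq h hh.1 a ha hh.2 h2
  refine ⟨T', hT'ind, ?_, ?_⟩
  · rintro u (rfl | rfl | hu) v (rfl | rfl | hv) huv hsq
    · exact absurd rfl huv
    · exact absurd (sq_swap hsq) (hsep u hαK)
    · exact sq_one hsq (hαT₁ v hv (sq_swap hsq))
    · exact absurd hsq (hsep v hαK)
    · exact absurd rfl huv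
    · exact absurd hsq (hsep v (hT₁K v hv))
    · exact hαT₁ u hu hsq
    · exact absurd (sq_swap hsq) (hsep u (hT₁K u hu))
    · exact hSq u hu.1 v hv.1 huv hsq
  · have hle : M ≤ Subgroup.closure T' ⊔ sqSub G := by
      rw [sup_le_iff]
      refine ⟨?_, le_sup_right⟩
      rw [Subgroup.closure_le]
      intro h hh
      by_cases hha : h = a
      · have h1 : h = (a * m) * m⁻¹ := by rw [hha]; group
        rw [h1]
        refine Subgroup.mul_mem _ (Subgroup.mem_sup_left (Subgroup.subset_closure ?_))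
          (Subgroup.mem_sup_right (Subgroup.inv_mem _ hm))
        exact Or.inr (Or.inl rfl)
      · exact Subgroup.mem_sup_left (Subgroup.subset_closure (Or.inr (Or.inr ⟨hh, hha⟩)))
    have hαm : α ∈ Subgroup.closure T' ⊔ sqSub G :=
      Subgroup.mem_sup_left (Subgroup.subset_closure (Or.inl rfl))
    rw [Subgroup.eq_top_iff']
    intro g
    by_cases hg : g ∈ M
    · exact hle hg
    · have h1 := hidx g α hg hα
      have h2 : g = (g * α) * α⁻¹ := by group
      rw [h2]
      exact Subgroup.mul_mem _ (hle h1) (Subgroup.inv_mem _ hαm)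

end

end Pool.Agent.Helper1.Cayley
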