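import Pool.Agent.Helper1.Cayley.Sequence

/-!
# Sparsity of the Cayley graph: at most `n log₃ n` edges on `n` vertices
-/

set_option autoImplicit false

namespace Pool.Agent.Helper1.Cayley

open Pool.Agent.Helper81.Cayley SimpleGraph

universe u

section Bound

variable {G : Type u} [Group G]

open Classical in
/-- The adjacent ordered pairs of elements of `S`. -/
noncomputable def pairs (H : Set G) (S : Finset G) : Finset (G × G) :=
  (S ×ˢ S).filter fun q => (cayleyGraph H).Adj q.1 q.2

theorem mem_pairs {H : Set G} {S : Finset G} {q : G × G} :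
    q ∈ pairs H S ↔ (q.1 ∈ S ∧ q.2 ∈ S) ∧ (cayleyGraph H).Adj q.1 q.2 := by
  classical
  unfold pairs
  rw [Finset.mem_filter, Finset.mem_product]

open Classical in
/-- The part of `S` in the coset of `x`. -/
noncomputable def part (K : Subgroup G) (S : Finset G) (x : G) : Finset G :=
  S.filter fun y => y * x⁻¹ ∈ K

theorem mem_part {K : Subgroup G} {S : Finset G} {x y : G} :
    y ∈ part K S x ↔ y ∈ S ∧ y * x⁻¹ ∈ K := by
  classical
  unfold part
  rw [Finset.mem_filter]

theorem part_eq {K : Subgroup G} {S : Finset G} {x y : G} (h : y * x⁻¹ ∈ K) :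
    part K S y = part K S x := by
  ext z
  rw [mem_part, mem_part]
  constructor
  · rintro ⟨h1, h2⟩
    refine ⟨h1, ?_⟩
    have : z * x⁻¹ = (z * y⁻¹) * (y * x⁻¹) := by group
    rw [this]
    exact K.mul_mem h2 h
  · rintro ⟨h1, h2⟩
    refine ⟨h1, ?_⟩
    have : z * y⁻¹ = (z * x⁻¹) * (y * x⁻¹)⁻¹ := by group
    rw [this]
    exact K.mul_mem h2 (K.inv_mem h)

open Classical in
/-- The number of neighbours `a * x`, `a⁻¹ * x` of `x` in `S`. -/
noncomputable def deg (a : G) (S : Finset G) (x : G) : ℕ :=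
  (if a * x ∈ S then 1 else 0) + (if a⁻¹ * x ∈ S then 1 else 0)

/-- The sum of `1 + deg` over one part is at most the number of elements of `S`. -/
theorem sum_part_le {K : Subgroup G} {a : G} (ha : a ∉ K) (ha2 : a * a ∉ K) (S : Finset G)
    (x : G) : ∑ y ∈ part K S x, (1 + deg a S y) ≤ S.card := by
  classical
  have ha' : a⁻¹ ∉ K := fun h => ha ((K.inv_mem_iff).mp h)
  let A := part K S x
  let B := (A.filter fun y => a * y ∈ S).image fun y => a * y
  let C := (A.filter fun y => a⁻¹ * y ∈ S).image fun y => a⁻¹ * y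
  have hsum : ∑ y ∈ A, (1 + deg a S y) = A.card + B.card + C.card := by
    have hB : B.card = (A.filter fun y => a * y ∈ S).card :=
      Finset.card_image_of_injective _ (mul_right_injective a)
    have hC : C.card = (A.filter fun y => a⁻¹ * y ∈ S).card :=
      Finset.card_image_of_injective _ (mul_right_injective a⁻¹)
    rw [hB, hC, Finset.card_filter, Finset.card_filter, Finset.card_eq_sum_ones,
      ← Finset.sum_add_distrib, ← Finset.sum_add_distrib]
    refine Finset.sum_congr rfl fun y _ => ?_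
    rw [deg, add_assoc]
  have hAB : Disjoint A B := by
    rw [Finset.disjoint_left]
    intro z hz hz'
    obtain ⟨y, hy, rfl⟩ := Finset.mem_image.mp hz'
    have h1 := (mem_part.mp hz).2
    have h2 := (mem_part.mp (Finset.mem_filter.mp hy).1).2
    apply ha
    have : a = (a * y * x⁻¹) * (y * x⁻¹)⁻¹ := by group
    rw [this]
    exact K.mul_mem h1 (K.inv_mem h2)
  have hAC : Disjoint A C := by
    rw [Finset.disjoint_left]
    intro z hz hz'
    obtain ⟨y, hy, rfl⟩ := Finset.mem_image.mp hz'
    have h1 := (mem_part.mp hz).2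
    have h2 := (mem_part.mp (Finset.mem_filter.mp hy).1).2
    apply ha'
    have : a⁻¹ = (a⁻¹ * y * x⁻¹) * (y * x⁻¹)⁻¹ := by group
    rw [this]
    exact K.mul_mem h1 (K.inv_mem h2)
  have hBC : Disjoint B C := by
    rw [Finset.disjoint_left]
    intro z hz hz'
    obtain ⟨y, hy, rfl⟩ := Finset.mem_image.mp hz
    obtain ⟨y', hy', h⟩ := Finset.mem_image.mp hz'
    have h1 := (mem_part.mp (Finset.mem_filter.mp hy').1).2
    have h2 := (mem_part.mp (Finset.mem_filter.mp hy).1).2
    apply ha2
    have h3 : y' = a * (a * y) := by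
      have h4 : a⁻¹ * y' = a * y := h
      rw [← h4, mul_inv_cancel_left]
    have : a * a = (y' * x⁻¹) * (y * x⁻¹)⁻¹ := by rw [h3]; group
    rw [this]
    exact K.mul_mem h1 (K.inv_mem h2)
  have hdisj : Disjoint (A ∪ B) C := Finset.disjoint_union_left.mpr ⟨hAC, hBC⟩
  have hsub : A ∪ B ∪ C ⊆ S := by
    intro z hz
    rcases Finset.mem_union.mp hz with h | h
    · rcases Finset.mem_union.mp h with h | h
      · exact (mem_part.mp h).1
      · obtain ⟨y, hy, rfl⟩ := Finset.mem_image.mp h
        exact (Finset.mem_filter.mp hy).2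
    · obtain ⟨y, hy, rfl⟩ := Finset.mem_image.mp h
      exact (Finset.mem_filter.mp hy).2
  change ∑ y ∈ A, (1 + deg a S y) ≤ S.card
  rw [hsum, ← Finset.card_union_of_disjoint hAB, ← Finset.card_union_of_disjoint hdisj]
  exact Finset.card_le_card hsub

theorem rel_symm {K : Subgroup G} {x y : G} : x * y⁻¹ ∈ K ↔ y * x⁻¹ ∈ K := by
  rw [← K.inv_mem_iff, mul_inv_rev, inv_inv]

/-- The double sum of the part sizes. -/
theorem sum_card_mul_le {K : Subgroup G} {a : G} (ha : a ∉ K) (ha2 : a * a ∉ K) (S : Finset G) :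
    ∑ x ∈ S, (part K S x).card * (1 + deg a S x) ≤ S.card * S.card := by
  classical
  have h1 : ∑ x ∈ S, (part K S x).card * (1 + deg a S x) =
      ∑ x ∈ S, ∑ y ∈ part K S x, (1 + deg a S y) := by
    have h2 : ∀ x ∈ S, (part K S x).card * (1 + deg a S x) =
        ∑ y ∈ S, if y * x⁻¹ ∈ K then (1 + deg a S x) else 0 := by
      intro x _
      rw [← Finset.sum_filter, Finset.sum_const, smul_eq_mul]
      rfl
    have h3 : ∀ x ∈ S, ∑ y ∈ part K S x, (1 + deg a S y) =
        ∑ y ∈ S, if y * x⁻¹ ∈ K then (1 + deg a S y) else 0 := by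
      intro x _
      rw [← Finset.sum_filter]
      rfl
    rw [Finset.sum_congr rfl h2, Finset.sum_congr rfl h3, Finset.sum_comm]
    refine Finset.sum_congr rfl fun x _ => Finset.sum_congr rfl fun y _ => ?_
    simp only [rel_symm (K := K) (x := x) (y := y)]
  rw [h1]
  calc ∑ x ∈ S, ∑ y ∈ part K S x, (1 + deg a S y) ≤ ∑ _x ∈ S, S.card :=
        Finset.sum_le_sum fun x _ => sum_part_le ha ha2 S x
    _ = S.card * S.card := by rw [Finset.sum_const, smul_eq_mul]

theorem log_one_add_deg (a : G) (S : Finset G) (x : G) :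
    (deg a S x : ℝ) * Real.log 3 ≤ 2 * Real.log ((1 + deg a S x : ℕ) : ℝ) := by
  have h0 : deg a S x = 0 ∨ deg a S x = 1 ∨ deg a S x = 2 := by
    unfold deg
    split_ifs <;> omega
  rcases h0 with h | h | h
  · rw [h]; simp
  · rw [h]
    have h1 : (2 : ℝ) * Real.log ((1 + 1 : ℕ) : ℝ) = Real.log 4 := by
      have : (4 : ℝ) = (2 : ℝ) ^ (2 : ℕ) := by norm_num
      rw [this, Real.log_pow]
      norm_num
    rw [h1, Nat.cast_one, one_mul]
    exact Real.log_le_log (by norm_num) (by norm_num)
  · rw [h]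
    norm_num

/-- The entropy inequality. -/
theorem sum_deg_le {K : Subgroup G} {a : G} (ha : a ∉ K) (ha2 : a * a ∉ K) (S : Finset G)
    (hS : S.Nonempty) :
    (∑ x ∈ S, (deg a S x : ℝ)) * Real.log 3 ≤
      2 * ∑ x ∈ S, (Real.log S.card - Real.log (part K S x).card) := by
  have hn : (0 : ℝ) < S.card := by exact_mod_cast Finset.card_pos.mpr hS
  have hpart : ∀ x ∈ S, (0 : ℝ) < (part K S x).card := by
    intro x hx
    have : x ∈ part K S x := mem_part.mpr ⟨hx, by rw [mul_inv_cancel]; exact K.one_mem⟩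
    exact_mod_cast Finset.card_pos.mpr ⟨x, this⟩
  have h1 : ∀ x ∈ S, 1 - ((part K S x).card * (1 + deg a S x : ℕ) : ℝ) / S.card ≤
      Real.log S.card - Real.log (part K S x).card - Real.log ((1 + deg a S x : ℕ) : ℝ) := by
    intro x hx
    have hp := hpart x hx
    have hd : (0 : ℝ) < ((1 + deg a S x : ℕ) : ℝ) := by exact_mod_cast (by omega : 0 < 1 + deg a S x)
    have hy : (0 : ℝ) < ((part K S x).card * (1 + deg a S x : ℕ) : ℝ) / S.card := by positivity
    have h2 := Real.log_le_sub_one_of_pos hy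
    rw [Real.log_div (by positivity) hn.ne', Real.log_mul hp.ne' hd.ne'] at h2
    linarith
  have h2 := Finset.sum_le_sum h1
  rw [Finset.sum_sub_distrib, Finset.sum_sub_distrib, ← Finset.sum_div, Finset.sum_const,
    nsmul_eq_mul, mul_one] at h2
  have h3 : (∑ x ∈ S, ((part K S x).card * (1 + deg a S x : ℕ) : ℝ)) ≤ S.card * S.card := by
    exact_mod_cast sum_card_mul_le ha ha2 S
  have h4 : (∑ x ∈ S, ((part K S x).card * (1 + deg a S x : ℕ) : ℝ)) / S.card ≤ S.card := by
    rw [div_le_iff₀ hn]
    exact h3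
  have h5 : ∑ x ∈ S, Real.log ((1 + deg a S x : ℕ) : ℝ) ≤
      ∑ x ∈ S, (Real.log S.card - Real.log (part K S x).card) := by linarith
  calc (∑ x ∈ S, (deg a S x : ℝ)) * Real.log 3 = ∑ x ∈ S, (deg a S x : ℝ) * Real.log 3 :=
        Finset.sum_mul _ _ _
    _ ≤ ∑ x ∈ S, 2 * Real.log ((1 + deg a S x : ℕ) : ℝ) :=
        Finset.sum_le_sum fun x _ => log_one_add_deg a S x
    _ = 2 * ∑ x ∈ S, Real.log ((1 + deg a S x : ℕ) : ℝ) := by rw [← Finset.mul_sum]
    _ ≤ _ := by linarith

open Classical in
/-- Sum over the parts. -/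
theorem sum_parts (H : Set G) (K : Subgroup G) (S : Finset G)
    (hIH : ∀ x ∈ S, ((pairs H (part K S x)).card : ℝ) * Real.log 3 ≤
      2 * ((part K S x).card * Real.log (part K S x).card)) :
    (((pairs H S).filter fun q : G × G => q.2 * q.1⁻¹ ∈ K).card : ℝ) * Real.log 3 ≤
      2 * ∑ x ∈ S, Real.log (part K S x).card := by
  classical
  let F := S.image fun x => part K S x
  -- the pairs in one coset
  have hcard : ((pairs H S).filter fun q => q.2 * q.1⁻¹ ∈ K).card =
      ∑ A ∈ F, (pairs H A).card := by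
    rw [Finset.card_eq_sum_card_fiberwise (f := fun q : G × G => part K S q.1) (t := F)]
    · refine Finset.sum_congr rfl fun A hA => ?_
      obtain ⟨x, hx, rfl⟩ := Finset.mem_image.mp hA
      congr 1
      ext q
      rw [Finset.mem_filter, Finset.mem_filter, mem_pairs, mem_pairs, mem_part, mem_part]
      constructor
      · rintro ⟨⟨⟨⟨h1, h2⟩, h3⟩, h4⟩, h5⟩
        have h6 : q.1 ∈ part K S x := by
          rw [← h5]; exact mem_part.mpr ⟨h1, by rw [mul_inv_cancel]; exact K.one_mem⟩
        have h7 := (mem_part.mp h6).2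
        refine ⟨⟨⟨h1, h7⟩, h2, ?_⟩, h3⟩
        have : q.2 * x⁻¹ = (q.2 * q.1⁻¹) * (q.1 * x⁻¹) := by group
        rw [this]
        exact K.mul_mem h4 h7
      · rintro ⟨⟨⟨h1, h7⟩, h2, h8⟩, h3⟩
        refine ⟨⟨⟨⟨h1, h2⟩, h3⟩, ?_⟩, part_eq h7⟩
        have : q.2 * q.1⁻¹ = (q.2 * x⁻¹) * (q.1 * x⁻¹)⁻¹ := by group
        rw [this]
        exact K.mul_mem h8 (K.inv_mem h7)
    · intro q hq
      have h1 := (mem_pairs.mp (Finset.mem_filter.mp hq).1).1.1
      exact Finset.mem_image_of_mem _ h1
  have hsum : ∑ x ∈ S, Real.log (part K S x).card = ∑ A ∈ F, (A.card : ℝ) * Real.log A.card := by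
    rw [← Finset.sum_fiberwise_of_maps_to (s := S) (t := F) (g := fun x => part K S x)
      (fun x hx => Finset.mem_image_of_mem _ hx)]
    refine Finset.sum_congr rfl fun A hA => ?_
    obtain ⟨x, hx, rfl⟩ := Finset.mem_image.mp hA
    have h1 : (S.filter fun y => part K S y = part K S x) = part K S x := by
      ext y
      rw [Finset.mem_filter, mem_part]
      constructor
      · rintro ⟨h1, h2⟩
        refine ⟨h1, ?_⟩
        have : y ∈ part K S x := by
          rw [← h2]; exact mem_part.mpr ⟨h1, by rw [mul_inv_cancel]; exact K.one_mem⟩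
        exact (mem_part.mp this).2
      · rintro ⟨h1, h2⟩
        exact ⟨h1, part_eq h2⟩
    rw [h1]
    have h2 : ∀ y ∈ part K S x, Real.log (part K S y).card = Real.log (part K S x).card := by
      intro y hy
      rw [part_eq (mem_part.mp hy).2]
    rw [Finset.sum_congr rfl h2, Finset.sum_const, nsmul_eq_mul]
  rw [hcard, hsum, Nat.cast_sum, Finset.sum_mul, Finset.mul_sum]
  refine Finset.sum_le_sum fun A hA => ?_
  obtain ⟨x, hx, rfl⟩ := Finset.mem_image.mp hA
  exact hIH x hx

/-- A finite set of `n` vertices has at most `2 n log₃ n` adjacent ordered pairs. -/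
theorem SquareSet.pairs_bound {H : Set G} (hH : SquareSet ∅ H) (S : Finset G) :
    ((pairs H S).card : ℝ) * Real.log 3 ≤ 2 * (S.card * Real.log S.card) := by
  classical
  induction hn : S.card using Nat.strong_induction_on generalizing S with
  | _ n ih =>
    subst hn
    rcases Finset.eq_empty_or_nonempty (pairs H S) with hemp | hne
    · rw [hemp, Finset.card_empty, Nat.cast_zero, zero_mul]
      have : 0 ≤ Real.log (S.card : ℝ) := Real.log_natCast_nonneg _
      positivity
    · obtain ⟨K, a, ha, ha2, -, hPK, q, hq, hqK⟩ :=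
        (hH.top_label (pairs H S) hne fun q hq => (mem_pairs.mp hq).2).resolve_left (by
          intro hcon
          obtain ⟨q, hq⟩ := hne
          obtain ⟨h, hh, -⟩ := hcon q hq
          exact hh)
      obtain ⟨⟨hq1, hq2⟩, -⟩ := mem_pairs.mp hq
      have hS : S.Nonempty := ⟨_, hq1⟩
      -- the parts are smaller
      have hlt : ∀ x ∈ S, (part K S x).card < S.card := by
        intro x hx
        apply Finset.card_lt_card
        rw [Finset.ssubset_iff_of_subset (fun y hy => (mem_part.mp hy).1)]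
        by_contra hcon
        push Not at hcon
        have h1 := (mem_part.mp (hcon _ hq1)).2
        have h2 := (mem_part.mp (hcon _ hq2)).2
        apply hqK
        have : q.2 * q.1⁻¹ = (q.2 * x⁻¹) * (q.1 * x⁻¹)⁻¹ := by group
        rw [this]
        exact K.mul_mem h2 (K.inv_mem h1)
      have hin := sum_parts H K S fun x hx => ih _ (hlt x hx) _ rfl
      -- the pairs between different cosets
      have hout : ((pairs H S).filter fun q => ¬ q.2 * q.1⁻¹ ∈ K).card ≤ ∑ x ∈ S, deg a S x := by
        have hsub : ((pairs H S).filter fun q => ¬ q.2 * q.1⁻¹ ∈ K) ⊆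
            ((S.filter fun x => a * x ∈ S).image fun x => (x, a * x)) ∪
              ((S.filter fun x => a⁻¹ * x ∈ S).image fun x => (x, a⁻¹ * x)) := by
          intro r hr
          obtain ⟨hr1, hr2⟩ := Finset.mem_filter.mp hr
          obtain ⟨⟨h1, h2⟩, h3⟩ := mem_pairs.mp hr1
          rcases (hPK r hr1).resolve_left hr2 with h | h
          · refine Finset.mem_union_left _ (Finset.mem_image.mpr ⟨r.1, ?_, by rw [← h]⟩)
            rw [Finset.mem_filter, ← h]
            exact ⟨h1, h2⟩
          · refine Finset.mem_union_right _ (Finset.mem_image.mpr ⟨r.1, ?_, by rw [← h]⟩)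
            rw [Finset.mem_filter, ← h]
            exact ⟨h1, h2⟩
        calc ((pairs H S).filter fun q => ¬ q.2 * q.1⁻¹ ∈ K).card ≤ _ := Finset.card_le_card hsub
          _ ≤ _ := Finset.card_union_le _ _
          _ ≤ (S.filter fun x => a * x ∈ S).card + (S.filter fun x => a⁻¹ * x ∈ S).card :=
              Nat.add_le_add Finset.card_image_le Finset.card_image_le
          _ = ∑ x ∈ S, deg a S x := by
              rw [Finset.card_filter, Finset.card_filter, ← Finset.sum_add_distrib]
              rfl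
      have hout' : (((pairs H S).filter fun q : G × G => ¬ q.2 * q.1⁻¹ ∈ K).card : ℝ) * Real.log 3 ≤
          2 * ∑ x ∈ S, (Real.log S.card - Real.log (part K S x).card) := by
        refine le_trans ?_ (sum_deg_le ha ha2 S hS)
        apply mul_le_mul_of_nonneg_right _ (Real.log_nonneg (by norm_num))
        exact_mod_cast hout
      have htot : ((pairs H S).card : ℝ) =
          (((pairs H S).filter fun q : G × G => q.2 * q.1⁻¹ ∈ K).card : ℝ) +
          (((pairs H S).filter fun q : G × G => ¬ q.2 * q.1⁻¹ ∈ K).card : ℝ) := by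
        exact_mod_cast (Finset.card_filter_add_card_filter_not (s := pairs H S)
          (fun q : G × G => q.2 * q.1⁻¹ ∈ K)).symm
      rw [htot, add_mul]
      rw [Finset.sum_sub_distrib, Finset.sum_const, nsmul_eq_mul] at hout'
      linarith

end Bound

end Pool.Agent.Helper1.Cayley
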