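import Pool.Agent.Helper81.Cayley.Semi

/-!
# The ternary Hamming graphs are unavoidable
-/

set_option autoImplicit false

namespace Pool.Agent.Helper1.Cayley

open Pool.Agent.Helper81.Cayley SimpleGraph

universe u

/-- The ternary Hamming graph `H(d, 3)`: the vertices are the words of length `d` over
`{0, 1, 2}`, two words are adjacent iff they differ in exactly one position. -/
def ternaryHamming (d : ℕ) : SimpleGraph (Fin d → ZMod 3) where
  Adj x y := ∃ i, x i ≠ y i ∧ ∀ j, j ≠ i → x j = y j
  symm := by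
    refine ⟨?_⟩
    rintro x y ⟨i, h1, h2⟩
    exact ⟨i, h1.symm, fun j hj => (h2 j hj).symm⟩
  loopless := by
    refine ⟨?_⟩
    rintro x ⟨i, h, -⟩
    exact h rfl

theorem ternaryHamming_adj {d : ℕ} {x y : Fin d → ZMod 3} :
    (ternaryHamming d).Adj x y ↔ ∃ i, x i ≠ y i ∧ ∀ j, j ≠ i → x j = y j := Iff.rfl

theorem adj_iff {d : ℕ} {x y : Fin d → ZMod 3} :
    (ternaryHamming d).Adj x y ↔ ∃ i, ∃ c : ZMod 3, c ≠ 0 ∧ y = x + Pi.single i c := by
  rw [ternaryHamming_adj]
  constructor
  · rintro ⟨i, h1, h2⟩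
    refine ⟨i, y i - x i, sub_ne_zero.mpr h1.symm, ?_⟩
    ext j
    by_cases hj : j = i
    · subst hj; simp
    · simp [hj, h2 j hj]
  · rintro ⟨i, c, hc, rfl⟩
    refine ⟨i, ?_, ?_⟩
    · simpa using hc
    · intro j hj
      simp [hj]

theorem not_colorable_two {d : ℕ} (hd : 1 ≤ d) : ¬ (ternaryHamming d).Colorable 2 := by
  rintro ⟨C⟩
  let i : Fin d := ⟨0, hd⟩
  let v : ZMod 3 → Fin d → ZMod 3 := fun c => Pi.single i c
  have hv : ∀ a b : ZMod 3, a ≠ b → C (v a) ≠ C (v b) := by
    intro a b hab
    apply C.valid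
    refine ⟨i, ?_, ?_⟩
    · simpa [v] using hab
    · intro j hj
      simp [v, hj]
  have h1 := hv 0 1 (by decide)
  have h2 := hv 0 2 (by decide)
  have h3 := hv 1 2 (by decide)
  generalize C (v 0) = a at *
  generalize C (v 1) = b at *
  generalize C (v 2) = c at *
  revert a b c
  decide

theorem edges_card (d : ℕ) : (ternaryHamming d).edgeSet.ncard = d * 3 ^ d := by
  classical
  have h1 : 2 * (ternaryHamming d).edgeSet.ncard = Fintype.card (ternaryHamming d).Dart := by
    rw [SimpleGraph.dart_card_eq_twice_card_edges, ← SimpleGraph.coe_edgeFinset,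
      Set.ncard_coe_finset]
  let F : (Fin d → ZMod 3) × (Fin d × {c : ZMod 3 // c ≠ 0}) → (ternaryHamming d).Dart :=
    fun p => ⟨(p.1, p.1 + Pi.single p.2.1 p.2.2.1), adj_iff.mpr ⟨p.2.1, p.2.2.1, p.2.2.2, rfl⟩⟩
  have hF : Function.Bijective F := by
    constructor
    · rintro ⟨x, i, c, hc⟩ ⟨x', i', c', hc'⟩ h
      have h2 := congrArg (fun e : (ternaryHamming d).Dart => e.toProd) h
      simp only [F] at h2
      obtain ⟨h3, h4⟩ := Prod.mk.inj h2
      subst h3
      have h5 := add_left_cancel h4
      have h6 : i = i' := by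
        by_contra hne
        have h7 := congrFun h5 i
        rw [Pi.single_eq_same, Pi.single_eq_of_ne hne] at h7
        exact hc h7
      subst h6
      have h8 := congrFun h5 i
      rw [Pi.single_eq_same, Pi.single_eq_same] at h8
      subst h8
      rfl
    · rintro ⟨⟨x, y⟩, hxy⟩
      obtain ⟨i, c, hc, h⟩ := adj_iff.mp hxy
      simp only at h
      subst h
      exact ⟨(x, i, ⟨c, hc⟩), rfl⟩
  have h2 := Fintype.card_of_bijective hF
  rw [← h1, Fintype.card_prod, Fintype.card_prod, Fintype.card_fun, Fintype.card_fin,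
    ZMod.card] at h2
  have h3 : Fintype.card {c : ZMod 3 // c ≠ 0} = 2 := by decide
  rw [h3] at h2
  have h4 : 3 ^ d * (d * 2) = 2 * (d * 3 ^ d) := by ring
  omega

/-- Every Cayley graph of the elementary abelian group of order `3 ^ d` contains `H(d, 3)`. -/
theorem contains_hamming (d : ℕ) (H : Set (Multiplicative (Fin d → ZMod 3)))
    (hH : Subgroup.closure H = ⊤) : (ternaryHamming d).IsContained (cayleyGraph H) := by
  classical
  let M := Fin d → ZMod 3
  let H' : Set M := {x | Multiplicative.ofAdd x ∈ H}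
  have hspan : Submodule.span (ZMod 3) H' = ⊤ := by
    rw [Submodule.eq_top_iff']
    intro x
    have hall : ∀ y ∈ Subgroup.closure H, y.toAdd ∈ Submodule.span (ZMod 3) H' := by
      intro y hy
      induction hy using Subgroup.closure_induction with
      | mem y hy => exact Submodule.subset_span hy
      | one => exact Submodule.zero_mem _
      | mul y z _ _ h1 h2 => exact Submodule.add_mem _ h1 h2
      | inv y _ h1 => exact Submodule.neg_mem _ h1
    exact hall (Multiplicative.ofAdd x) (by rw [hH]; trivial)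
  obtain ⟨b, hbH, hbspan, hbli⟩ := exists_linearIndependent (ZMod 3) H'
  have hbtop : ⊤ ≤ Submodule.span (ZMod 3) (Set.range ((↑) : b → M)) := by
    rw [Subtype.range_coe, hbspan, hspan]
  let B : Module.Basis b (ZMod 3) M := Module.Basis.mk hbli hbtop
  have hfin : Module.finrank (ZMod 3) M = d := by simp [M]
  have : Fintype b := FiniteDimensional.fintypeBasisIndex B
  have hcard : Fintype.card b = d := by
    rw [← Module.finrank_eq_card_basis B, hfin]
  let e : Fin d ≃ b := (Fintype.equivFinOfCardEq hcard).symm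
  let B' : Module.Basis (Fin d) (ZMod 3) M := B.reindex e.symm
  have hB' : ∀ i, Multiplicative.ofAdd (B' i) ∈ H := by
    intro i
    have h1 : B' i = (e i : M) := by
      rw [Module.Basis.reindex_apply, Equiv.symm_symm, Module.Basis.mk_apply]
    rw [h1]
    exact hbH (e i).2
  let φ : M ≃ₗ[ZMod 3] M := B'.equivFun.symm
  have hφ : ∀ i (c : ZMod 3), φ (Pi.single i c) = c • B' i := by
    intro i c
    rw [Module.Basis.equivFun_symm_apply, Finset.sum_eq_single i]
    · rw [Pi.single_eq_same]
    · intro j _ hj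
      rw [Pi.single_eq_of_ne hj, zero_smul]
    · intro h; exact absurd (Finset.mem_univ _) h
  refine ⟨⟨⟨fun x => Multiplicative.ofAdd (φ x), ?_⟩, ?_⟩⟩
  · intro x y hxy
    rw [cayleyGraph_adj]
    refine ⟨fun h => (ternaryHamming d).ne_of_adj hxy (φ.injective h), ?_⟩
    obtain ⟨i, c, hc, rfl⟩ := adj_iff.mp hxy
    refine ⟨Multiplicative.ofAdd (B' i), hB' i, ?_⟩
    have hcc : c = 1 ∨ c = -1 := by
      clear hxy
      revert hc; revert c; decide
    rcases hcc with rfl | rfl
    · left
      rw [map_add, hφ, one_smul, add_comm]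
      rfl
    · right
      rw [map_add, hφ, neg_one_smul, add_comm]
      rfl
  · intro x y h
    exact φ.injective h

/-- The ternary Hamming graphs are unavoidable. -/
theorem not_avoidable_hamming (d : ℕ) : ¬ Avoidable.{u, 0} (ternaryHamming d) := by
  intro h
  obtain ⟨H, -, hH, hcon⟩ := h (ULift.{u} (Multiplicative (Fin d → ZMod 3)))
  let e : ULift.{u} (Multiplicative (Fin d → ZMod 3)) ≃* Multiplicative (Fin d → ZMod 3) :=
    MulEquiv.ulift
  let H' : Set (Multiplicative (Fin d → ZMod 3)) := e '' H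
  have hH' : Subgroup.closure H' = ⊤ := by
    have h1 : Subgroup.map e.toMonoidHom (Subgroup.closure H) =
        Subgroup.closure (e.toMonoidHom '' H) := MonoidHom.map_closure _ _
    rw [hH] at h1
    have h2 : Subgroup.map e.toMonoidHom ⊤ = ⊤ :=
      Subgroup.map_top_of_surjective _ e.surjective
    rw [h2] at h1
    exact h1.symm
  obtain ⟨f⟩ := contains_hamming d H' hH'
  apply hcon
  refine ⟨⟨⟨fun x => e.symm (f x), ?_⟩, ?_⟩⟩
  · intro x y hxy
    have h1 := f.toHom.map_adj hxy
    rw [cayleyGraph_adj] at h1 ⊢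
    obtain ⟨hne, s, ⟨t, ht, rfl⟩, h2⟩ := h1
    refine ⟨fun h => hne (e.symm.injective h), t, ht, ?_⟩
    rcases h2 with h2 | h2
    · left
      apply e.injective
      rw [MulEquiv.apply_symm_apply, map_mul, MulEquiv.apply_symm_apply]
      exact h2
    · right
      apply e.injective
      rw [MulEquiv.apply_symm_apply, map_mul, map_inv, MulEquiv.apply_symm_apply]
      exact h2
  · intro x y h
    exact f.injective (e.symm.injective h)

end Pool.Agent.Helper1.Cayley
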