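import Pool.Agent.Helper1.Cayley.TwoThree
import Pool.Agent.Helper1.Cayley.Edges
import Pool.Agent.Helper1.Cayley.Hamming

/-!
# Non-bipartite graphs
-/

set_option autoImplicit false

namespace Pool.Agent.Helper1.Cayley

open Pool.Agent.Helper81.Cayley SimpleGraph

universe u v

/-- A group with a nontrivial homomorphism to the group with two elements has a bipartite Cayley
graph. -/
theorem exists_bipartite {G : Type u} [Group G] (f : G →* Multiplicative (ZMod 2)) (x₀ : G)
    (hx₀ : f x₀ ≠ 1) : ∃ H : Set G, (1 : G) ∉ H ∧ Subgroup.closure H = ⊤ ∧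
      (cayleyGraph H).Colorable 2 := by
  classical
  refine ⟨{g | f g ≠ 1}, fun h => h (map_one f), ?_, ?_⟩
  · rw [eq_top_iff]
    intro g _
    by_cases hg : f g = 1
    · have h1 : f (g * x₀⁻¹) ≠ 1 := by
        rw [map_mul, hg, one_mul, map_inv]
        exact inv_ne_one.mpr hx₀
      have h2 : g = (g * x₀⁻¹) * x₀ := by group
      rw [h2]
      exact Subgroup.mul_mem _ (Subgroup.subset_closure h1) (Subgroup.subset_closure hx₀)
    · exact Subgroup.subset_closure hg
  · have hne : ∀ a b : Multiplicative (ZMod 2), a ≠ 1 → a * b ≠ b := by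
      intro a b h h'
      exact h (mul_eq_right.mp h')
    let C : (cayleyGraph {g : G | f g ≠ 1}).Coloring (Multiplicative (ZMod 2)) :=
      Coloring.mk f (by
        intro a b hab hcon
        obtain ⟨-, h, hh, h2 | h2⟩ := cayleyGraph_adj.mp hab
        · rw [h2, map_mul] at hcon
          exact hne _ _ hh hcon.symm
        · rw [h2, map_mul, map_inv] at hcon
          exact hne _ _ (inv_ne_one.mpr hh) hcon.symm)
    have h1 := C.colorable
    have h2 : Fintype.card (Multiplicative (ZMod 2)) = 2 := rfl
    rw [h2] at h1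
    exact h1

/-- The Cayley graph does not contain `K_{2,3}`. -/
theorem SquareSet.not_contains {G : Type u} [Group G] {T₀ H : Set G} (hH : SquareSet T₀ H)
    (hT : LinearIndepOn (ZMod 2) (toV (G := G)) T₀) (hSq : SqD T₀) :
    ¬ (completeBipartiteGraph (Fin 2) (Fin 3)).IsContained (cayleyGraph H) := by
  rintro ⟨f⟩
  have hinj : Function.Injective f := f.injective
  refine hH.no_three hT hSq (x := f (Sum.inl 0)) (x' := f (Sum.inl 1)) ?_ (fun i => f (Sum.inr i)) ?_ ?_ ?_
  · intro h
    have := hinj h
    simp at this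
  · intro i j h
    have := hinj h
    simpa using this
  · intro i
    exact f.toHom.map_adj (by simp)
  · intro i
    exact f.toHom.map_adj (by simp)

/-- A graph on `n` vertices contained in the Cayley graph has at most `n log₃ n` edges. -/
theorem SquareSet.edges_le {G : Type u} [Group G] {H : Set G} (hH : SquareSet ∅ H) {V : Type v}
    [Fintype V] (Z : SimpleGraph V) (hZ : Z.IsContained (cayleyGraph H)) :
    3 ^ Z.edgeSet.ncard ≤ Fintype.card V ^ Fintype.card V := by
  classical
  obtain ⟨f⟩ := hZ
  have hinj : Function.Injective f := f.injective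
  let S : Finset G := Finset.univ.image f
  have hS : S.card = Fintype.card V := by
    rw [Finset.card_image_of_injective _ hinj, Finset.card_univ]
  have hb := hH.pairs_bound S
  rw [hS] at hb
  have hle : 2 * Z.edgeSet.ncard ≤ (pairs H S).card := by
    have h1 : 2 * Z.edgeSet.ncard = Fintype.card Z.Dart := by
      rw [SimpleGraph.dart_card_eq_twice_card_edges, ← SimpleGraph.coe_edgeFinset,
        Set.ncard_coe_finset]
    rw [h1, ← Finset.card_univ]
    refine Finset.card_le_card_of_injOn (fun d => (f d.fst, f d.snd)) ?_ ?_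
    · intro d _
      rw [Finset.mem_coe, mem_pairs]
      exact ⟨⟨Finset.mem_image_of_mem _ (Finset.mem_univ _),
        Finset.mem_image_of_mem _ (Finset.mem_univ _)⟩, f.toHom.map_adj d.adj⟩
    · intro d _ d' _ hdd
      have h2 := Prod.mk.inj hdd
      have h3 := hinj h2.1
      have h4 := hinj h2.2
      exact SimpleGraph.Dart.ext _ _ (Prod.ext h3 h4)
  have hle' : (2 * (Z.edgeSet.ncard : ℝ)) * Real.log 3 ≤
      2 * (Fintype.card V * Real.log (Fintype.card V)) := by
    refine le_trans ?_ hb
    apply mul_le_mul_of_nonneg_right _ (Real.log_nonneg (by norm_num))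
    exact_mod_cast hle
  rcases Nat.eq_zero_or_pos (Fintype.card V) with h0 | hpos
  · rw [h0, Nat.cast_zero, zero_mul, mul_zero] at hle'
    have hlog : 0 < Real.log 3 := Real.log_pos (by norm_num)
    have h1 : (Z.edgeSet.ncard : ℝ) ≤ 0 := by
      by_contra hcon
      push Not at hcon
      have : 0 < (2 * (Z.edgeSet.ncard : ℝ)) * Real.log 3 := by positivity
      linarith
    have h2 : Z.edgeSet.ncard = 0 := by
      have : Z.edgeSet.ncard ≤ 0 := by exact_mod_cast h1
      omega
    rw [h2, h0, pow_zero, pow_zero]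
  · have h1 : (Z.edgeSet.ncard : ℝ) * Real.log 3 ≤ Fintype.card V * Real.log (Fintype.card V) := by
      linarith
    rw [← Real.log_pow, ← Real.log_pow] at h1
    have hp1 : (0 : ℝ) < (3 : ℝ) ^ Z.edgeSet.ncard := by positivity
    have hp2 : (0 : ℝ) < (Fintype.card V : ℝ) ^ Fintype.card V := by
      have : (0 : ℝ) < Fintype.card V := by exact_mod_cast hpos
      positivity
    have h2 := (Real.log_le_log_iff hp1 hp2).mp h1
    exact_mod_cast h2

/-- In a group without subgroups of index two there is no nontrivial homomorphism to the group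
with two elements. -/
theorem no_hom_of_index {G : Type u} [Group G] (hG : ∀ N : Subgroup G, N.index ≠ 2)
    (f : G →* Multiplicative (ZMod 2)) (x : G) : f x = 1 := by
  by_contra hne
  apply hG f.ker
  rw [Subgroup.index_ker]
  have hsurj : Function.Surjective f := by
    have h2 : ∀ a b : Multiplicative (ZMod 2), a ≠ 1 → b = 1 ∨ b = a := by decide
    intro b
    rcases h2 _ b hne with h | h
    · exact ⟨1, by rw [map_one, h]⟩
    · exact ⟨x, h.symm⟩
  rw [MonoidHom.range_eq_top.mpr hsurj]
  rw [Nat.card_congr (Subgroup.topEquiv (G := Multiplicative (ZMod 2))).toEquiv,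
    Nat.card_eq_fintype_card]
  rfl

/-- The generating set for groups without nontrivial homomorphism to the group of order two. -/
theorem exists_squareSet_empty {G : Type u} [Group G]
    (hG : ¬ ∃ f : G →* Multiplicative (ZMod 2), ∃ x, f x ≠ 1) : ∃ H : Set G, SquareSet ∅ H := by
  refine exists_squareSet (Set.notMem_empty _) (fun b hb => absurd hb (Set.notMem_empty _)) ?_
  intro K _ hK
  by_contra hcon
  push Not at hcon
  exact hG (exists_hom_of_squares K hK hcon)

theorem indep_empty (G : Type u) [Group G] :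
    LinearIndepOn (ZMod 2) (toV (G := G)) (∅ : Set G) := linearIndepOn_empty _ _

theorem sqD_empty (G : Type u) [Group G] : SqD (∅ : Set G) := fun _ h => absurd h (Set.notMem_empty _)

/-- Groups without subgroups of index two. -/
theorem exists_cayley_of_no_index_two {G : Type u} [Group G] (hG : ∀ N : Subgroup G, N.index ≠ 2) :
    ∃ H : Set G, (1 : G) ∉ H ∧ Subgroup.closure H = ⊤ ∧
      ¬ (completeBipartiteGraph (Fin 2) (Fin 3)).IsContained (cayleyGraph H) ∧
      ∀ (n : ℕ) (Z : SimpleGraph (Fin n)), Z.IsContained (cayleyGraph H) →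
        3 ^ Z.edgeSet.ncard ≤ n ^ n := by
  obtain ⟨H, hH⟩ := exists_squareSet_empty (G := G) (by
    rintro ⟨f, x, hx⟩
    exact hx (no_hom_of_index hG f x))
  refine ⟨H, hH.one_notMem, hH.closure_eq, hH.not_contains (indep_empty G) (sqD_empty G),
    fun n Z hZ => ?_⟩
  have := hH.edges_le Z hZ
  rwa [Fintype.card_fin] at this

/-- Non-bipartite graphs with a finite subgraph with too many edges are avoidable. -/
theorem avoidable_of_not_bipartite {V : Type v} (Y : SimpleGraph V) (hY : ¬ Y.Colorable 2)
    (n : ℕ) (Z : SimpleGraph (Fin n)) (hZ : Z.IsContained Y)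
    (hn : n ^ n < 3 ^ Z.edgeSet.ncard) : Avoidable.{u, v} Y := by
  intro G _
  by_cases hG : ∃ f : G →* Multiplicative (ZMod 2), ∃ x, f x ≠ 1
  · obtain ⟨f, x, hx⟩ := hG
    obtain ⟨H, h1, h2, h3⟩ := exists_bipartite f x hx
    refine ⟨H, h1, h2, ?_⟩
    rintro ⟨g⟩
    exact hY (h3.of_hom g.toHom)
  · obtain ⟨H, hH⟩ := exists_squareSet_empty hG
    refine ⟨H, hH.one_notMem, hH.closure_eq, fun hcon => ?_⟩
    have := hH.edges_le Z (hZ.trans hcon)
    rw [Fintype.card_fin] at this
    omega

end Pool.Agent.Helper1.Cayley
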