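import Pool.Agent.Helper1.Cayley.SquareStep
import Pool.Agent.Helper81.Cayley.Semi

/-!
# A well-ordered irredundant generating set with squares outside the previous subgroup

Starting from a set `T₀` we add one element after the other, each with its square outside the
subgroup generated by the previous elements, until the group is generated.
-/

set_option autoImplicit false

namespace Pool.Agent.Helper1.Cayley

open Pool.Agent.Helper81.Cayley SimpleGraph

universe u

section Seq

variable {G : Type u} [Group G]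

/-- `x` is a good next element after the elements of `T`. -/
def Good (T : Set G) (x : G) : Prop :=
  x ∉ Subgroup.closure T ∧ x * x ∉ Subgroup.closure T ∧
    ((x ^ 3 ∈ T ∨ (x ^ 3)⁻¹ ∈ T) → (x ^ 3) ^ 3 = 1)

open Classical in
/-- The transfinite sequence of chosen elements. -/
noncomputable def sq (T₀ : Set G) : Ordinal.{u} → G :=
  WellFounded.fix (C := fun _ => G) (wellFounded_lt (α := Ordinal.{u})) fun o ih =>
    if h : ∃ x, Good (T₀ ∪ {g | ∃ p, ∃ hp : p < o, ih p hp = g}) x then Classical.choose h else 1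

/-- The elements chosen before stage `o`, together with `T₀`. -/
def before (T₀ : Set G) (o : Ordinal.{u}) : Set G := T₀ ∪ {g | ∃ p, ∃ _ : p < o, sq T₀ p = g}

variable {T₀ : Set G}

theorem sq_good (o : Ordinal.{u}) (h : ∃ x, Good (before T₀ o) x) :
    Good (before T₀ o) (sq T₀ o) := by
  classical
  have h1 : sq T₀ o = if h : ∃ x, Good (before T₀ o) x then Classical.choose h else 1 := by
    unfold sq
    rw [WellFounded.fix_eq]
    rfl
  rw [h1, dif_pos h]
  exact Classical.choose_spec h

theorem before_mono {p o : Ordinal.{u}} (h : p ≤ o) : before T₀ p ⊆ before T₀ o := by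
  rintro g (hg | ⟨q, hq, rfl⟩)
  · exact Or.inl hg
  · exact Or.inr ⟨q, lt_of_lt_of_le hq h, rfl⟩

theorem mem_before {p o : Ordinal.{u}} (h : p < o) : sq T₀ p ∈ before T₀ o := Or.inr ⟨p, h, rfl⟩

theorem base_le (o : Ordinal.{u}) : Subgroup.closure T₀ ≤ Subgroup.closure (before T₀ o) :=
  Subgroup.closure_mono fun _ h => Or.inl h

/-- The existence of a good next element. -/
theorem exists_good (hG : ∀ K : Subgroup G, Subgroup.closure T₀ ≤ K → K ≠ ⊤ →
      ∃ x, x ∉ K ∧ x * x ∉ K) (T : Set G) (hT₀ : Subgroup.closure T₀ ≤ Subgroup.closure T)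
    (hT : Subgroup.closure T ≠ ⊤)
    (hinv : ∀ b ∈ T, b ^ 3 ≠ 1 → b ^ 2 ∉ T ∧ (b ^ 2)⁻¹ ∉ T) : ∃ x, Good T x := by
  obtain ⟨x, hx, hx2⟩ := hG _ hT₀ hT
  by_cases h3 : x ^ 3 ∈ T ∨ (x ^ 3)⁻¹ ∈ T
  · by_cases h9 : (x ^ 3) ^ 3 = 1
    · exact ⟨x, hx, hx2, fun _ => h9⟩
    · have hK : x ^ 3 ∈ Subgroup.closure T := by
        rcases h3 with h | h
        · exact Subgroup.subset_closure h
        · exact (Subgroup.inv_mem_iff _).mp (Subgroup.subset_closure h)
      refine ⟨x * x, hx2, ?_, ?_⟩
      · intro hcon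
        apply hx
        have h4 : x = (x * x * (x * x)) * (x ^ 3)⁻¹ := by group
        rw [h4]
        exact Subgroup.mul_mem _ hcon (Subgroup.inv_mem _ hK)
      · intro hcon
        exfalso
        have h6 : (x * x) ^ 3 = (x ^ 3) ^ 2 := by rw [← pow_two, ← pow_mul, ← pow_mul]
        rcases h3 with h | h
        · have := hinv _ h h9
          rw [h6] at hcon
          rcases hcon with hc | hc
          · exact this.1 hc
          · exact this.2 hc
        · have h9' : ((x ^ 3)⁻¹) ^ 3 ≠ 1 := by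
            intro hc
            apply h9
            rw [inv_pow, inv_eq_one] at hc
            exact hc
          have := hinv _ h h9'
          rw [h6] at hcon
          rw [inv_pow] at this
          rcases hcon with hc | hc
          · exact this.2 (by rw [inv_inv]; exact hc)
          · exact this.1 hc
  · exact ⟨x, hx, hx2, fun hc => absurd hc h3⟩

/-- If all elements of the sequence before stage `o` are good, the invariant holds. -/
theorem invariant (hinv : ∀ b ∈ T₀, b ^ 3 ≠ 1 → b ^ 2 ∉ T₀ ∧ (b ^ 2)⁻¹ ∉ T₀)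
    (o : Ordinal.{u}) (h : ∀ p < o, Good (before T₀ p) (sq T₀ p)) :
    ∀ b ∈ before T₀ o, b ^ 3 ≠ 1 → b ^ 2 ∉ before T₀ o ∧ (b ^ 2)⁻¹ ∉ before T₀ o := by
  rintro b (hb | ⟨p, hp, rfl⟩) hb3
  · have key : ∀ c : G, (c = b ^ 2 ∨ c = (b ^ 2)⁻¹) → c ∉ before T₀ o := by
      rintro c hc (hcT | ⟨q, hq, rfl⟩)
      · rcases hc with rfl | rfl
        · exact (hinv b hb hb3).1 hcT
        · exact (hinv b hb hb3).2 hcT
      · apply (h q hq).1
        have hmem : b ∈ Subgroup.closure (before T₀ q) :=
          base_le q (Subgroup.subset_closure hb)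
        rcases hc with hc | hc
        · rw [hc]; exact Subgroup.pow_mem _ hmem 2
        · rw [hc]; exact Subgroup.inv_mem _ (Subgroup.pow_mem _ hmem 2)
    exact ⟨key _ (Or.inl rfl), key _ (Or.inr rfl)⟩
  have key : ∀ c : G, (c = sq T₀ p ^ 2 ∨ c = (sq T₀ p ^ 2)⁻¹) → c ∉ before T₀ o := by
    rintro c hc (hcT | ⟨q, hq, rfl⟩)
    · apply (h p hp).2.1
      have hmem : c ∈ Subgroup.closure (before T₀ p) :=
        base_le p (Subgroup.subset_closure hcT)
      rcases hc with hc | hc
      · rw [hc, pow_two] at hmem; exact hmem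
      · rw [hc, pow_two] at hmem; exact (Subgroup.inv_mem_iff _).mp hmem
    have hgp := h p hp
    have hgq := h q hq
    rcases lt_trichotomy q p with hlt | heq | hgt
    · -- `q < p`
      apply hgp.2.1
      have hmem : sq T₀ q ∈ Subgroup.closure (before T₀ p) :=
        Subgroup.subset_closure (mem_before hlt)
      rcases hc with hc | hc
      · rw [hc, pow_two] at hmem; exact hmem
      · rw [hc, pow_two] at hmem; exact (Subgroup.inv_mem_iff _).mp hmem
    · subst heq
      rcases hc with hc | hc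
      · -- `b = b ^ 2`
        have h1 : sq T₀ q = 1 := by
          have h2 : sq T₀ q * 1 = sq T₀ q * sq T₀ q := by rw [mul_one, ← pow_two, ← hc]
          exact (mul_left_cancel h2).symm
        exact hb3 (by rw [h1, one_pow])
      · apply hb3
        have h2 : sq T₀ q ^ 3 = sq T₀ q * sq T₀ q ^ 2 := by rw [pow_succ' (sq T₀ q) 2]
        rw [h2]
        nth_rewrite 1 [hc]
        exact inv_mul_cancel _
    · apply hgq.1
      have hmem : sq T₀ p ∈ Subgroup.closure (before T₀ q) :=
        Subgroup.subset_closure (mem_before hgt)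
      rcases hc with hc | hc
      · rw [hc]; exact Subgroup.pow_mem _ hmem 2
      · rw [hc]; exact Subgroup.inv_mem _ (Subgroup.pow_mem _ hmem 2)
  exact ⟨key _ (Or.inl rfl), key _ (Or.inr rfl)⟩

theorem good_of_ne_top (hinv : ∀ b ∈ T₀, b ^ 3 ≠ 1 → b ^ 2 ∉ T₀ ∧ (b ^ 2)⁻¹ ∉ T₀)
    (hG : ∀ K : Subgroup G, Subgroup.closure T₀ ≤ K → K ≠ ⊤ → ∃ x, x ∉ K ∧ x * x ∉ K) :
    ∀ o : Ordinal.{u}, Subgroup.closure (before T₀ o) ≠ ⊤ → Good (before T₀ o) (sq T₀ o) := by
  intro o
  induction o using WellFoundedLT.induction with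
  | _ o ih =>
    intro ho
    apply sq_good
    apply exists_good hG _ (base_le o) ho
    apply invariant hinv
    intro p hp
    apply ih p hp
    intro hcon
    apply ho
    rw [eq_top_iff] at hcon ⊢
    exact le_trans hcon (Subgroup.closure_mono (before_mono hp.le))

/-- Some initial segment of the sequence generates the group, and all its members are good. -/
theorem exists_stage (hinv : ∀ b ∈ T₀, b ^ 3 ≠ 1 → b ^ 2 ∉ T₀ ∧ (b ^ 2)⁻¹ ∉ T₀)
    (hG : ∀ K : Subgroup G, Subgroup.closure T₀ ≤ K → K ≠ ⊤ → ∃ x, x ∉ K ∧ x * x ∉ K) :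
    ∃ o : Ordinal.{u}, Subgroup.closure (before T₀ o) = ⊤ ∧
      ∀ p < o, Good (before T₀ p) (sq T₀ p) := by
  have hex : ∃ o : Ordinal.{u}, Subgroup.closure (before T₀ o) = ⊤ := by
    by_contra hcon
    push Not at hcon
    apply not_injective_of_ordinal (α := G) (fun o => sq T₀ o)
    have hlt : ∀ p q : Ordinal.{u}, p < q → sq T₀ p ≠ sq T₀ q := by
      intro p q hpq heq
      have := (good_of_ne_top hinv hG q (hcon q)).1
      apply this
      rw [← heq]
      exact Subgroup.subset_closure (mem_before hpq)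
    intro p q hpq
    rcases lt_trichotomy p q with h | h | h
    · exact absurd hpq (hlt p q h)
    · exact h
    · exact absurd hpq.symm (hlt q p h)
  obtain ⟨o, ho, hmin⟩ := (wellFounded_lt (α := Ordinal.{u})).has_min
    {o | Subgroup.closure (before T₀ o) = ⊤} hex
  refine ⟨o, ho, fun p hp => good_of_ne_top hinv hG p ?_⟩
  intro hcon
  exact hmin p hcon hp

end Seq

/-- The properties of the generating set used for the theorems. -/
structure SquareSet {G : Type u} [Group G] (T₀ H : Set G) : Prop where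
  one_notMem : (1 : G) ∉ H
  closure_eq : Subgroup.closure H = ⊤
  /-- For every nonempty finite set of adjacent pairs, either all pairs differ by elements of `T₀`
  or their inverses, or there are a subgroup `K` and an element `a` such that `a ∉ K`,
  `a * a ∉ K`, all pairs are in the same coset of `K` or differ by the factor `a` or its inverse,
  and some pair is not in the same coset. -/
  top_label : ∀ P : Finset (G × G), P.Nonempty → (∀ q ∈ P, (cayleyGraph H).Adj q.1 q.2) →
    (∀ q ∈ P, ∃ h ∈ T₀, q.2 = h * q.1 ∨ q.2 = h⁻¹ * q.1) ∨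
    ∃ (K : Subgroup G) (a : G), a ∉ K ∧ a * a ∉ K ∧
      ((a ^ 3 ∈ H ∨ (a ^ 3)⁻¹ ∈ H) → a ^ 4 = 1) ∧
      (∀ q ∈ P, q.2 * q.1⁻¹ ∈ K ∨ q.2 = a * q.1 ∨ q.2 = a⁻¹ * q.1) ∧
      ∃ q ∈ P, q.2 * q.1⁻¹ ∉ K

theorem exists_squareSet {G : Type u} [Group G] {T₀ : Set G} (hone₀ : (1 : G) ∉ T₀)
    (hinv : ∀ b ∈ T₀, b ^ 3 ≠ 1 → b ^ 2 ∉ T₀ ∧ (b ^ 2)⁻¹ ∉ T₀)
    (hG : ∀ K : Subgroup G, Subgroup.closure T₀ ≤ K → K ≠ ⊤ → ∃ x, x ∉ K ∧ x * x ∉ K) :
    ∃ H : Set G, SquareSet T₀ H := by
  classical
  obtain ⟨o, ho, hgood⟩ := exists_stage hinv hG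
  let T : Set G := before T₀ o
  let H : Set G := {b | b ∈ T ∧ ¬ (b ^ 3 = 1 ∧ ∃ c ∈ T, c ^ 3 = b ∨ c ^ 3 = b⁻¹)}
  have hone : (1 : G) ∉ T := by
    rintro (h | ⟨p, hp, h⟩)
    · exact hone₀ h
    · have := (hgood p hp).1
      rw [h] at this
      exact this (Subgroup.one_mem _)
  refine ⟨H, fun h => hone h.1, ?_, ?_⟩
  · -- generation
    rw [eq_top_iff, ← ho, Subgroup.closure_le]
    intro b hb
    by_cases hbH : b ∈ H
    · exact Subgroup.subset_closure hbH
    · have h1 : b ^ 3 = 1 ∧ ∃ c ∈ T, c ^ 3 = b ∨ c ^ 3 = b⁻¹ := by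
        by_contra hcon
        exact hbH ⟨hb, hcon⟩
      obtain ⟨hb3, c, hc, hcb⟩ := h1
      have hbne : b ≠ 1 := fun h => hone (h ▸ hb)
      have hcH : c ∈ H := by
        refine ⟨hc, fun h => hbne ?_⟩
        rcases hcb with h2 | h2
        · rw [← h2]; exact h.1
        · rw [← inv_eq_one, ← h2]; exact h.1
      have hc3 : c ^ 3 ∈ Subgroup.closure H :=
        Subgroup.pow_mem _ (Subgroup.subset_closure hcH) 3
      rcases hcb with h2 | h2
      · rw [← h2]; exact hc3
      · have : b = (c ^ 3)⁻¹ := by rw [h2, inv_inv]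
        rw [this]; exact Subgroup.inv_mem _ hc3
  · intro P hP hadj
    by_cases hbase : ∀ q ∈ P, ∃ h ∈ T₀, q.2 = h * q.1 ∨ q.2 = h⁻¹ * q.1
    · exact Or.inl hbase
    right
    push Not at hbase
    obtain ⟨q₀, hq₀, hq₀'⟩ := hbase
    -- labels of the pairs which are not of type `T₀`
    let B : G × G → Prop := fun q => ∃ h ∈ T₀, q.2 = h * q.1 ∨ q.2 = h⁻¹ * q.1
    have hlab : ∀ q : G × G, ∃ p : Ordinal.{u}, (cayleyGraph H).Adj q.1 q.2 → ¬ B q →
        p < o ∧ sq T₀ p ∈ H ∧ (q.2 = sq T₀ p * q.1 ∨ q.2 = (sq T₀ p)⁻¹ * q.1) := by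
      intro q
      by_cases hq : (cayleyGraph H).Adj q.1 q.2
      · obtain ⟨-, h, hh, hh'⟩ := cayleyGraph_adj.mp hq
        rcases hh.1 with hT | ⟨p, hp, rfl⟩
        · exact ⟨0, fun _ hB => absurd ⟨h, hT, hh'⟩ hB⟩
        · exact ⟨p, fun _ _ => ⟨hp, hh, hh'⟩⟩
      · exact ⟨0, fun h => absurd h hq⟩
    choose lab hlab using hlab
    let P' := P.filter fun q => ¬ B q
    have hP' : P'.Nonempty := by
      refine ⟨q₀, Finset.mem_filter.mpr ⟨hq₀, ?_⟩⟩
      rintro ⟨h, hh, h1 | h1⟩
      · exact (hq₀' h hh).1 h1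
      · exact (hq₀' h hh).2 h1
    obtain ⟨q, hqP', hqmax⟩ := Finset.exists_max_image P' lab hP'
    obtain ⟨hqP, hqB⟩ := Finset.mem_filter.mp hqP'
    obtain ⟨hqo, hqH, hqq⟩ := hlab q (hadj q hqP) hqB
    obtain ⟨hg1, hg2, hg3⟩ := hgood _ hqo
    refine ⟨Subgroup.closure (before T₀ (lab q)), sq T₀ (lab q), hg1, hg2, ?_, ?_, q, hqP, ?_⟩
    · -- the cube
      have key : ∀ h ∈ H, (h = sq T₀ (lab q) ^ 3 ∨ h = (sq T₀ (lab q) ^ 3)⁻¹) →
          sq T₀ (lab q) ^ 4 = 1 := by
        intro h hh hcase
        have hearly : h ∈ before T₀ (lab q) → False := by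
          intro hb
          have h3 : (sq T₀ (lab q) ^ 3) ^ 3 = 1 := by
            apply hg3
            rcases hcase with h1 | h1
            · left; rw [← h1]; exact hb
            · right; rw [← h1]; exact hb
          apply hh.2
          refine ⟨?_, sq T₀ (lab q), mem_before hqo, ?_⟩
          · rcases hcase with h1 | h1
            · rw [h1]; exact h3
            · rw [h1, inv_pow, h3, inv_one]
          · rcases hcase with h1 | h1
            · left; exact h1.symm
            · right; rw [h1, inv_inv]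
        rcases hh.1 with hT | ⟨r, hr, hrh⟩
        · exact (hearly (Or.inl hT)).elim
        rcases lt_trichotomy r (lab q) with hlt | heq | hgt
        · exact (hearly (hrh ▸ mem_before hlt)).elim
        · rw [heq] at hrh
          generalize sq T₀ (lab q) = x at *
          rcases hcase with h1 | h1
          · exfalso
            apply hg2
            have h2 : x * x = 1 := by
              have h4 : x * (x * x) = x * 1 := by
                rw [mul_one, ← mul_assoc, ← pow_two, ← pow_succ, ← h1, hrh]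
              exact mul_left_cancel h4
            rw [h2]; exact Subgroup.one_mem _
          · have h4 : x ^ 4 = x ^ 3 * x := pow_succ _ 3
            have h5 : x = (x ^ 3)⁻¹ := hrh.trans h1
            rw [h4]
            nth_rewrite 2 [h5]
            exact mul_inv_cancel _
        · exfalso
          apply (hgood r hr).1
          have hmem : sq T₀ (lab q) ^ 3 ∈ Subgroup.closure (before T₀ r) :=
            Subgroup.pow_mem _ (Subgroup.subset_closure (mem_before hgt)) 3
          rw [hrh]
          rcases hcase with h1 | h1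
          · rw [h1]; exact hmem
          · rw [h1]; exact Subgroup.inv_mem _ hmem
      rintro (h | h)
      · exact key _ h (Or.inl rfl)
      · exact key _ h (Or.inr rfl)
    · intro r hr
      by_cases hrB : B r
      · left
        obtain ⟨h, hh, h2⟩ := hrB
        have hin : h ∈ Subgroup.closure (before T₀ (lab q)) :=
          base_le _ (Subgroup.subset_closure hh)
        rcases h2 with h2 | h2
        · rw [h2, mul_inv_cancel_right]; exact hin
        · rw [h2, mul_inv_cancel_right]; exact Subgroup.inv_mem _ hin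
      have hle := hqmax r (Finset.mem_filter.mpr ⟨hr, hrB⟩)
      obtain ⟨hro, hrH, hrr⟩ := hlab r (hadj r hr) hrB
      rcases lt_or_eq_of_le hle with h | h
      · left
        have hin : sq T₀ (lab r) ∈ Subgroup.closure (before T₀ (lab q)) :=
          Subgroup.subset_closure (mem_before h)
        rcases hrr with h2 | h2
        · rw [h2, mul_inv_cancel_right]; exact hin
        · rw [h2, mul_inv_cancel_right]; exact Subgroup.inv_mem _ hin
      · right
        rw [← h]
        exact hrr
    · intro hcon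
      rcases hqq with h2 | h2
      · rw [h2, mul_inv_cancel_right] at hcon
        exact hg1 hcon
      · rw [h2, mul_inv_cancel_right] at hcon
        exact hg1 ((Subgroup.inv_mem_iff _).mp hcon)

end Pool.Agent.Helper1.Cayley
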