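import Mathlib

/-!
# The subgroup generated by the squares and the vector space of its cosets
-/

set_option autoImplicit false

namespace Pool.Agent.Helper1.Cayley

universe u

section

variable (G : Type u) [Group G]

/-- The subgroup generated by the squares. -/
def sqSub : Subgroup G := Subgroup.closure (Set.range fun g : G => g * g)

variable {G}

theorem mul_self_mem (g : G) : g * g ∈ sqSub G := Subgroup.subset_closure ⟨g, rfl⟩

theorem sqSub_le {K : Subgroup G} (h : ∀ g, g * g ∈ K) : sqSub G ≤ K := by
  unfold sqSub
  rw [Subgroup.closure_le]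
  rintro x ⟨g, rfl⟩
  exact h g

theorem normal_of_le {K : Subgroup G} (h : sqSub G ≤ K) : K.Normal := by
  refine ⟨fun n hn g => ?_⟩
  have h1 : g * n * g⁻¹ = (g * n) * (g * n) * n⁻¹ * (g⁻¹ * g⁻¹) := by group
  rw [h1]
  exact K.mul_mem (K.mul_mem (h (mul_self_mem _)) (K.inv_mem hn)) (h (mul_self_mem _))

instance : (sqSub G).Normal := normal_of_le le_rfl

theorem quot_mul_self (q : G ⧸ sqSub G) : q * q = 1 := by
  induction q using QuotientGroup.induction_on with
  | H g =>
    rw [← QuotientGroup.mk_mul, QuotientGroup.eq_one_iff]
    exact mul_self_mem g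

theorem quot_mul_comm (x y : G ⧸ sqSub G) : x * y = y * x := by
  have hx : x⁻¹ = x := inv_eq_of_mul_eq_one_left (quot_mul_self x)
  have hy : y⁻¹ = y := inv_eq_of_mul_eq_one_left (quot_mul_self y)
  have h2 : (x * y)⁻¹ = x * y := inv_eq_of_mul_eq_one_left (quot_mul_self _)
  rw [← h2, mul_inv_rev, hx, hy]

variable (G) in
/-- The quotient by the subgroup generated by the squares, written additively. -/
def Vsp : Type u := Additive (G ⧸ sqSub G)

instance : AddCommGroup (Vsp G) :=
  { (inferInstance : AddGroup (Additive (G ⧸ sqSub G))) with
    add_comm := fun x y => quot_mul_comm (G := G) x.toMul y.toMul }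

theorem vsp_add_self (v : Vsp G) : v + v = 0 := quot_mul_self (G := G) v.toMul

instance : Module (ZMod 2) (Vsp G) := AddCommGroup.zmodModule (n := 2) (by
  intro x
  rw [two_nsmul]
  exact vsp_add_self x)

/-- The class of a group element. -/
def toV (g : G) : Vsp G := Additive.ofMul (g : G ⧸ sqSub G)

theorem toV_mul (x y : G) : toV (x * y) = toV x + toV y := rfl

theorem toV_one : toV (1 : G) = 0 := rfl

theorem toV_inv (x : G) : toV x⁻¹ = toV x := by
  have h1 : toV x + toV x⁻¹ = 0 := by rw [← toV_mul, mul_inv_cancel, toV_one]
  have h2 := vsp_add_self (toV x)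
  rw [← h2] at h1
  exact add_left_cancel h1

theorem toV_eq_zero {x : G} : toV x = 0 ↔ x ∈ sqSub G := QuotientGroup.eq_one_iff x

theorem toV_eq {x y : G} : toV x = toV y ↔ x * y⁻¹ ∈ sqSub G := by
  rw [← toV_eq_zero, toV_mul, toV_inv]
  constructor
  · intro h
    rw [h]; exact vsp_add_self _
  · intro h
    rw [← vsp_add_self (toV y)] at h
    exact add_right_cancel h

theorem toV_surjective : Function.Surjective (toV (G := G)) := by
  intro v
  obtain ⟨g, hg⟩ := QuotientGroup.mk_surjective (s := sqSub G) v.toMul
  exact ⟨g, hg⟩

/-- The span of the classes of a set and the subgroup generated by it and the squares. -/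
theorem toV_mem_span {S : Set G} {x : G} :
    toV x ∈ Submodule.span (ZMod 2) (toV '' S) ↔ x ∈ Subgroup.closure S ⊔ sqSub G := by
  constructor
  · intro h
    have key : ∀ v ∈ Submodule.span (ZMod 2) (toV '' S), ∀ y : G, toV y = v →
        y ∈ Subgroup.closure S ⊔ sqSub G := by
      intro v hv
      induction hv using Submodule.span_induction with
      | mem v hv =>
        obtain ⟨s, hs, rfl⟩ := hv
        intro y hy
        have h1 : y = (y * s⁻¹) * s := by group
        rw [h1]
        exact Subgroup.mul_mem _ (Subgroup.mem_sup_right (toV_eq.mp hy))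
          (Subgroup.mem_sup_left (Subgroup.subset_closure hs))
      | zero =>
        intro y hy
        exact Subgroup.mem_sup_right (toV_eq_zero.mp hy)
      | add v w _ _ h1 h2 =>
        intro y hy
        obtain ⟨a, ha⟩ := toV_surjective (G := G) v
        obtain ⟨b, hb⟩ := toV_surjective (G := G) w
        have h3 : toV y = toV (a * b) := by rw [hy, toV_mul, ha, hb]
        have h4 : y = (y * (a * b)⁻¹) * (a * b) := by group
        rw [h4]
        exact Subgroup.mul_mem _ (Subgroup.mem_sup_right (toV_eq.mp h3))
          (Subgroup.mul_mem _ (h1 a ha) (h2 b hb))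
      | smul c v _ h1 =>
        intro y hy
        have hc : c = 0 ∨ c = 1 := by clear hy; revert c; decide
        rcases hc with rfl | rfl
        · rw [zero_smul] at hy
          exact Subgroup.mem_sup_right (toV_eq_zero.mp hy)
        · rw [one_smul] at hy
          exact h1 y hy
    exact key _ h x rfl
  · intro h
    let P : Subgroup G :=
      { carrier := {y | toV y ∈ Submodule.span (ZMod 2) (toV '' S)}
        one_mem' := by
          rw [Set.mem_ofPred_eq, toV_one]
          exact Submodule.zero_mem _
        mul_mem' := by
          intro a b ha hb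
          rw [Set.mem_ofPred_eq] at ha hb ⊢
          rw [toV_mul]
          exact Submodule.add_mem _ ha hb
        inv_mem' := by
          intro a ha
          rw [Set.mem_ofPred_eq] at ha ⊢
          rw [toV_inv]; exact ha }
    have hle : Subgroup.closure S ⊔ sqSub G ≤ P := by
      rw [sup_le_iff, Subgroup.closure_le]
      constructor
      · intro s hs
        exact Submodule.subset_span ⟨s, hs, rfl⟩
      · intro s hs
        change toV s ∈ Submodule.span (ZMod 2) (toV '' S)
        rw [toV_eq_zero.mpr hs]
        exact Submodule.zero_mem _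
    exact hle h

end

end Pool.Agent.Helper1.Cayley
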