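import Mathlib

/-!
# Groups without a subgroup of index two

In a group without nontrivial homomorphism to the group with two elements, for every proper
subgroup `K` there is an element `x ∉ K` with `x * x ∉ K`.
-/

set_option autoImplicit false

namespace Pool.Agent.Helper1.Cayley

theorem exists_hom_of_exponent_two {Q : Type*} [Group Q] (h : ∀ q : Q, q * q = 1) (q₀ : Q)
    (hq₀ : q₀ ≠ 1) : ∃ f : Q →* Multiplicative (ZMod 2), f q₀ ≠ 1 := by
  classical
  have hcomm : ∀ x y : Q, x * y = y * x := by
    intro x y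
    have h1 := h (x * y)
    have hx : x⁻¹ = x := inv_eq_of_mul_eq_one_left (h x)
    have hy : y⁻¹ = y := inv_eq_of_mul_eq_one_left (h y)
    have h2 : (x * y)⁻¹ = x * y := inv_eq_of_mul_eq_one_left h1
    rw [← h2, mul_inv_rev, hx, hy]
  let inst : CommGroup Q := { (inferInstance : Group Q) with mul_comm := hcomm }
  let A := Additive Q
  let _ : AddCommGroup A := inferInstanceAs (AddCommGroup (Additive Q))
  let _ : Module (ZMod 2) A := AddCommGroup.zmodModule (n := 2) (by
    intro x
    rw [two_nsmul]
    exact h x.toMul)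
  have hne : (Additive.ofMul q₀ : A) ≠ 0 := hq₀
  obtain ⟨φ, hφ⟩ := Module.Projective.exists_dual_ne_zero (ZMod 2) hne
  refine ⟨{ toFun := fun x => Multiplicative.ofAdd (φ (Additive.ofMul x)), map_one' := ?_,
            map_mul' := ?_ }, ?_⟩
  · have : (Additive.ofMul (1 : Q) : A) = 0 := rfl
    rw [this, map_zero]; rfl
  · intro x y
    have : (Additive.ofMul (x * y) : A) = Additive.ofMul x + Additive.ofMul y := rfl
    rw [this, map_add]; rfl
  · intro hcon
    exact hφ hcon

/-- The dichotomy: if all elements outside a proper subgroup `K` have their squares in `K`, the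
group has a nontrivial homomorphism to the group with two elements. -/
theorem exists_hom_of_squares {G : Type*} [Group G] (K : Subgroup G) (hK : K ≠ ⊤)
    (h : ∀ x, x ∉ K → x * x ∈ K) : ∃ f : G →* Multiplicative (ZMod 2), ∃ x, f x ≠ 1 := by
  have hnorm : K.Normal := by
    refine ⟨fun k hk x => ?_⟩
    by_cases hx : x ∈ K
    · exact K.mul_mem (K.mul_mem hx hk) (K.inv_mem hx)
    · have h1 : x * k ∉ K := fun hc => hx ((K.mul_mem_cancel_right hk).mp hc)
      have h2 := h _ h1
      have h3 := h _ hx
      have h4 : x * k * x⁻¹ = (x * k * (x * k)) * k⁻¹ * (x * x)⁻¹ := by group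
      rw [h4]
      exact K.mul_mem (K.mul_mem h2 (K.inv_mem hk)) (K.inv_mem h3)
  obtain ⟨x₀, hx₀⟩ : ∃ x, x ∉ K := by
    by_contra hcon
    push Not at hcon
    exact hK ((Subgroup.eq_top_iff' K).mpr hcon)
  obtain ⟨f, hf⟩ := exists_hom_of_exponent_two (Q := G ⧸ K) (by
    intro q
    induction q using QuotientGroup.induction_on with
    | H g =>
      rw [← QuotientGroup.mk_mul, QuotientGroup.eq_one_iff]
      by_cases hg : g ∈ K
      · exact K.mul_mem hg hg
      · exact h g hg) (x₀ : G ⧸ K) (fun hc => hx₀ ((QuotientGroup.eq_one_iff x₀).mp hc))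
  exact ⟨f.comp (QuotientGroup.mk' K), x₀, hf⟩

end Pool.Agent.Helper1.Cayley
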