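import Pool.Agent.Helper1.Cayley.NonBip
import Pool.Agent.Helper1.Cayley.Dichotomy

/-!
# Two-cubical graphs
-/

set_option autoImplicit false

namespace Pool.Agent.Helper1.Cayley

open Pool.Agent.Helper81.Cayley SimpleGraph

universe u v w w'

/-- A graph is *two-cubical* if it has a homomorphism `φ` to a (possibly infinite dimensional)
cube, such that no vertex has three neighbours with the same image. The vertices of the cube are
the subsets of a type `ι`, two subsets are adjacent iff they differ in exactly one element. -/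
def TwoCubical {V : Type v} (Y : SimpleGraph V) : Prop :=
  ∃ (ι : Type v) (φ : V → Set ι),
    (∀ x y, Y.Adj x y → ∃ i, symmDiff (φ x) (φ y) = {i}) ∧
    ∀ x y₁ y₂ y₃, Y.Adj x y₁ → Y.Adj x y₂ → Y.Adj x y₃ → φ y₁ = φ y₂ → φ y₂ = φ y₃ →
      y₁ = y₂ ∨ y₂ = y₃ ∨ y₁ = y₃

/-- The universe of the index type does not matter. -/
theorem twoCubical_of {V : Type v} (Y : SimpleGraph V) {ι : Type w} (φ : V → Set ι)
    (h1 : ∀ x y, Y.Adj x y → ∃ i, symmDiff (φ x) (φ y) = {i})
    (h2 : ∀ x y₁ y₂ y₃, Y.Adj x y₁ → Y.Adj x y₂ → Y.Adj x y₃ → φ y₁ = φ y₂ → φ y₂ = φ y₃ →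
      y₁ = y₂ ∨ y₂ = y₃ ∨ y₁ = y₃) : TwoCubical Y := by
  classical
  choose lab hlab using h1
  let D := {p : V × V // Y.Adj p.1 p.2}
  let R : Set ι := Set.range fun p : D => lab p.1.1 p.1.2 p.2
  have hsmall : Small.{v} R := inferInstance
  let e : R ≃ Shrink.{v} R := equivShrink R
  let ψ : V → Set (Shrink.{v} R) := fun x => {j | ((e.symm j : R) : ι) ∈ φ x}
  have hψ : ∀ x y (hxy : Y.Adj x y), symmDiff (ψ x) (ψ y) =
      {e ⟨lab x y hxy, ⟨⟨(x, y), hxy⟩, rfl⟩⟩} := by
    intro x y hxy
    ext j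
    have h3 : j ∈ symmDiff (ψ x) (ψ y) ↔ ((e.symm j : R) : ι) ∈ symmDiff (φ x) (φ y) := by
      rw [Set.mem_symmDiff, Set.mem_symmDiff]
      rfl
    rw [h3, hlab x y hxy, Set.mem_singleton_iff, Set.mem_singleton_iff]
    constructor
    · intro h
      rw [← Equiv.symm_apply_eq]
      exact Subtype.ext h
    · intro h
      rw [h, Equiv.symm_apply_apply]
  refine ⟨Shrink.{v} R, ψ, fun x y hxy => ⟨_, hψ x y hxy⟩, ?_⟩
  have key : ∀ x y z, Y.Adj x y → Y.Adj x z → ψ y = ψ z → φ y = φ z := by
    intro x y z hxy hxz h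
    have h3 := hψ x y hxy
    have h4 := hψ x z hxz
    rw [h, h4] at h3
    have h5 := e.injective (Set.singleton_injective h3)
    have h6 : lab x z hxz = lab x y hxy := congrArg Subtype.val h5
    have h7 : symmDiff (φ x) (φ y) = symmDiff (φ x) (φ z) := by
      rw [hlab x y hxy, hlab x z hxz, h6]
    exact symmDiff_right_injective _ h7
  intro x y₁ y₂ y₃ a1 a2 a3 b1 b2
  exact h2 x y₁ y₂ y₃ a1 a2 a3 (key x _ _ a1 a2 b1) (key x _ _ a2 a3 b2)

/-- Subgraphs of two-cubical graphs are two-cubical. -/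
theorem TwoCubical.of_contained {V : Type v} {V' : Type w} {Y : SimpleGraph V}
    {Y' : SimpleGraph V'} (h : Y.IsContained Y') (hY' : TwoCubical Y') : TwoCubical Y := by
  obtain ⟨f⟩ := h
  obtain ⟨ι, φ, h1, h2⟩ := hY'
  have hinj : Function.Injective f := f.injective
  refine twoCubical_of Y (fun x => φ (f x)) (fun x y hxy => h1 _ _ (f.toHom.map_adj hxy)) ?_
  intro x y₁ y₂ y₃ a1 a2 a3 b1 b2
  rcases h2 _ _ _ _ (f.toHom.map_adj a1) (f.toHom.map_adj a2) (f.toHom.map_adj a3) b1 b2 with
    h | h | h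
  · exact Or.inl (hinj h)
  · exact Or.inr (Or.inl (hinj h))
  · exact Or.inr (Or.inr (hinj h))

/-- Two-cubical graphs are bipartite. -/
theorem TwoCubical.colorable {V : Type v} {Y : SimpleGraph V} (hY : TwoCubical Y) :
    Y.Colorable 2 := by
  classical
  obtain ⟨ι, φ, h1, -⟩ := hY
  rw [SimpleGraph.two_colorable_iff_forall_loop_even]
  have key : ∀ (x y : V) (p : Y.Walk x y), (symmDiff (φ x) (φ y)).Finite ∧
      (Even p.length ↔ Even (symmDiff (φ x) (φ y)).ncard) := by
    intro x y p
    induction p with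
    | nil => simp
    | @cons a b c h p ih =>
      obtain ⟨hfin, hpar⟩ := ih
      obtain ⟨i, hi⟩ := h1 _ _ h
      have h3 : symmDiff (φ a) (φ c) = symmDiff {i} (symmDiff (φ b) (φ c)) := by
        rw [← hi, symmDiff_assoc, symmDiff_symmDiff_cancel_left]
      rw [Walk.length_cons, Nat.even_add_one, hpar, h3]
      generalize symmDiff (φ b) (φ c) = D at *
      by_cases hiD : i ∈ D
      · have h4 : symmDiff {i} D = D \ {i} := by
          ext j
          simp only [Set.mem_symmDiff, Set.mem_singleton_iff, Set.mem_sdiff]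
          constructor
          · rintro (⟨rfl, h⟩ | h)
            · exact absurd hiD h
            · exact h
          · intro h
            exact Or.inr h
        rw [h4]
        refine ⟨hfin.subset Set.sdiff_subset, ?_⟩
        have h5 := Set.ncard_sdiff_singleton_add_one hiD hfin
        rw [← h5, Nat.even_add_one, not_not]
      · have h4 : symmDiff {i} D = insert i D := by
          ext j
          simp only [Set.mem_symmDiff, Set.mem_singleton_iff, Set.mem_insert_iff]
          constructor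
          · rintro (⟨rfl, h⟩ | h)
            · exact Or.inl rfl
            · exact Or.inr h.1
          · rintro (rfl | h)
            · exact Or.inl ⟨rfl, hiD⟩
            · exact Or.inr ⟨h, fun hj => hiD (hj ▸ h)⟩
        rw [h4]
        refine ⟨hfin.insert i, ?_⟩
        rw [Set.ncard_insert_of_notMem hiD hfin, Nat.even_add_one]
  intro x p
  have := (key x x p).2
  rw [symmDiff_self] at this
  rw [this]
  simp

/-- The Cayley graph of a generating set which is independent modulo the squares is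
two-cubical. -/
theorem twoCubical_cayley {G : Type u} [Group G] {H : Set G}
    (hH : LinearIndepOn (ZMod 2) (toV (G := G)) H) (hcl : Subgroup.closure H = ⊤) :
    TwoCubical (cayleyGraph H) := by
  classical
  have hspan : ⊤ ≤ Submodule.span (ZMod 2) (Set.range fun h : H => toV (h : G)) := by
    intro v _
    obtain ⟨g, rfl⟩ := toV_surjective (G := G) v
    have h1 : toV g ∈ Submodule.span (ZMod 2) (toV '' H) := by
      rw [toV_mem_span, hcl, top_sup_eq]
      trivial
    have h2 : (Set.range fun h : H => toV (h : G)) = toV '' H := by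
      ext v
      constructor
      · rintro ⟨⟨h, hh⟩, rfl⟩
        exact ⟨h, hh, rfl⟩
      · rintro ⟨h, hh, rfl⟩
        exact ⟨⟨h, hh⟩, rfl⟩
    rw [h2]
    exact h1
  let B : Module.Basis H (ZMod 2) (Vsp G) := Module.Basis.mk hH hspan
  have hB : ∀ h : H, B.repr (toV (h : G)) = Finsupp.single h 1 := by
    intro h
    have h1 : B h = toV (h : G) := Module.Basis.mk_apply _ _ _
    rw [← h1, Module.Basis.repr_self]
  let φ : G → Set H := fun g => {h | B.repr (toV g) h ≠ 0}
  have h01 : ∀ a : ZMod 2, a = 0 ∨ a = 1 := by decide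
  have hdiff : ∀ (x y : G) (h : H), (y = h * x ∨ y = (h : G)⁻¹ * x) →
      symmDiff (φ x) (φ y) = {h} := by
    intro x y h hy
    have h1 : toV y = toV (h : G) + toV x := by
      rcases hy with hy | hy
      · rw [hy, toV_mul]
      · rw [hy, toV_mul, toV_inv]
    have h2 : B.repr (toV y) = Finsupp.single h 1 + B.repr (toV x) := by
      rw [h1, map_add, hB]
    ext k
    rw [Set.mem_symmDiff, Set.mem_singleton_iff]
    change (B.repr (toV x) k ≠ 0 ∧ ¬ (B.repr (toV y) k ≠ 0)) ∨
      (B.repr (toV y) k ≠ 0 ∧ ¬ (B.repr (toV x) k ≠ 0)) ↔ k = h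
    rw [h2, Finsupp.add_apply, Finsupp.single_apply]
    by_cases hk : h = k
    · subst hk
      rw [if_pos rfl]
      refine iff_of_true ?_ rfl
      rcases h01 (B.repr (toV x) h) with h3 | h3
      · right; rw [h3]; decide
      · left; rw [h3]; decide
    · rw [if_neg hk, zero_add]
      refine iff_of_false ?_ (fun h => hk h.symm)
      tauto
  refine ⟨H, φ, ?_, ?_⟩
  · intro x y hxy
    obtain ⟨-, h, hh, hy⟩ := cayleyGraph_adj.mp hxy
    exact ⟨⟨h, hh⟩, hdiff x y ⟨h, hh⟩ hy⟩
  · intro x y₁ y₂ y₃ a1 a2 a3 b1 b2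
    obtain ⟨-, k1, hk1, c1⟩ := cayleyGraph_adj.mp a1
    obtain ⟨-, k2, hk2, c2⟩ := cayleyGraph_adj.mp a2
    obtain ⟨-, k3, hk3, c3⟩ := cayleyGraph_adj.mp a3
    have d1 := hdiff x y₁ ⟨k1, hk1⟩ c1
    have d2 := hdiff x y₂ ⟨k2, hk2⟩ c2
    have d3 := hdiff x y₃ ⟨k3, hk3⟩ c3
    rw [b1, d2] at d1
    rw [b2, d3] at d2
    have e1 : k2 = k1 := congrArg Subtype.val (Set.singleton_injective d1)
    have e2 : k3 = k2 := congrArg Subtype.val (Set.singleton_injective d2)
    subst e1
    subst e2
    rcases c1 with c1 | c1 <;> rcases c2 with c2 | c2 <;> rcases c3 with c3 | c3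
    · exact Or.inl (c1.trans c2.symm)
    · exact Or.inl (c1.trans c2.symm)
    · exact Or.inr (Or.inr (c1.trans c3.symm))
    · exact Or.inr (Or.inl (c2.trans c3.symm))
    · exact Or.inr (Or.inl (c2.trans c3.symm))
    · exact Or.inr (Or.inr (c1.trans c3.symm))
    · exact Or.inl (c1.trans c2.symm)
    · exact Or.inl (c1.trans c2.symm)

/-- Every group has a Cayley graph which contains no `K_{2,3}` or is two-cubical. -/
theorem exists_cayley (G : Type u) [Group G] : ∃ H : Set G, (1 : G) ∉ H ∧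
    Subgroup.closure H = ⊤ ∧
    (¬ (completeBipartiteGraph (Fin 2) (Fin 3)).IsContained (cayleyGraph H) ∨
      TwoCubical (cayleyGraph H)) := by
  rcases dichotomy G with ⟨T, hT, hSq, hcl⟩ | ⟨H, hH, hcl⟩
  · obtain ⟨H, hH⟩ := exists_squareSet (one_notMem_of_indep hT) (inv_of_indep hT) (by
      intro K hTK hK
      by_contra hcon
      push Not at hcon
      apply hK
      rw [eq_top_iff, ← hcl, sup_le_iff]
      refine ⟨hTK, sqSub_le fun g => ?_⟩
      by_cases hg : g ∈ K
      · exact K.mul_mem hg hg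
      · exact hcon g hg)
    exact ⟨H, hH.one_notMem, hH.closure_eq, Or.inl (hH.not_contains hT hSq)⟩
  · exact ⟨H, one_notMem_of_indep hH, hcl, Or.inr (twoCubical_cayley hH hcl)⟩

/-- A graph which contains `K_{2,3}` and is not two-cubical is avoidable. -/
theorem avoidable_of_not_twoCubical {V : Type v} (Y : SimpleGraph V)
    (h23 : (completeBipartiteGraph (Fin 2) (Fin 3)).IsContained Y) (hY : ¬ TwoCubical Y) :
    Avoidable.{u, v} Y := by
  intro G _
  obtain ⟨H, h1, h2, h3⟩ := exists_cayley G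
  refine ⟨H, h1, h2, fun hcon => ?_⟩
  rcases h3 with h3 | h3
  · exact h3 (h23.trans hcon)
  · exact hY (h3.of_contained hcon)

end Pool.Agent.Helper1.Cayley
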