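import Pool.Agent.Helper1.Cayley.Sequence
import Pool.Agent.Helper1.Cayley.Base

/-!
# No two vertices have three common neighbours
-/

set_option autoImplicit false

namespace Pool.Agent.Helper1.Cayley

open Pool.Agent.Helper81.Cayley SimpleGraph

universe u

section Core

variable {G : Type u} [Group G]

theorem inv_cube_mem {H : Set G} {a : G} (h : (a⁻¹ * a⁻¹ * a⁻¹ ∈ H ∨ (a⁻¹ * a⁻¹ * a⁻¹)⁻¹ ∈ H)) :
    a ^ 3 ∈ H ∨ (a ^ 3)⁻¹ ∈ H := by
  have h1 : a⁻¹ * a⁻¹ * a⁻¹ = (a ^ 3)⁻¹ := by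
    rw [← inv_pow, pow_succ, pow_two]
  rw [h1, inv_inv] at h
  exact h.symm

theorem cube_mem {H : Set G} {a : G} (h : (a * a * a ∈ H ∨ (a * a * a)⁻¹ ∈ H)) :
    a ^ 3 ∈ H ∨ (a ^ 3)⁻¹ ∈ H := by
  have h1 : a * a * a = a ^ 3 := by rw [pow_succ, pow_two]
  rw [h1] at h
  exact h

/-- Two different factorisations with first factors `a` and `a⁻¹`. -/
theorem claimA {H : Set G} {K : Subgroup G} {a t : G} (ha2 : a * a ∉ K)
    (h3 : (a ^ 3 ∈ H ∨ (a ^ 3)⁻¹ ∈ H) → a ^ 4 = 1) (ht : t ≠ 1)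
    {p q : G} (hp : p * a = t) (hq : q * a⁻¹ = t) (hpH : p ∈ H ∨ p⁻¹ ∈ H) (hqH : q ∈ H ∨ q⁻¹ ∈ H)
    (hpK : p ∈ K ∨ p = a ∨ p = a⁻¹) (hqK : q ∈ K ∨ q = a ∨ q = a⁻¹) :
    t = a * a ∧ a ^ 4 = 1 := by
  have hp' : p = t * a⁻¹ := by rw [← hp, mul_inv_cancel_right]
  have hq' : q = t * a := by rw [← hq, inv_mul_cancel_right]
  have case1 : t = a * a → a ^ 4 = 1 := by
    intro h
    apply h3
    apply cube_mem
    rw [hq', h] at hqH
    exact hqH
  have case2 : t = a⁻¹ * a⁻¹ → a ^ 4 = 1 := by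
    intro h
    apply h3
    apply inv_cube_mem
    rw [hp', h] at hpH
    exact hpH
  have case2' : t = a⁻¹ * a⁻¹ → t = a * a := by
    intro h
    have h4 := case2 h
    have h5 : a ^ 4 = a * a * (a * a) := by rw [← pow_two, ← pow_two, ← pow_mul]
    rw [h5] at h4
    rw [h, ← mul_inv_rev]
    exact inv_eq_of_mul_eq_one_left h4
  rcases hpK with h | h | h
  · rcases hqK with h' | h' | h'
    · exfalso
      apply ha2
      have : a * a = p⁻¹ * q := by rw [hp', hq']; group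
      rw [this]
      exact K.mul_mem (K.inv_mem h) h'
    · exfalso
      apply ht
      rw [← hq, h', mul_inv_cancel]
    · have : t = a⁻¹ * a⁻¹ := by rw [← hq, h']
      exact ⟨case2' this, case2 this⟩
  · have : t = a * a := by rw [← hp, h]
    exact ⟨this, case1 this⟩
  · exfalso
    apply ht
    rw [← hp, h, inv_mul_cancel]

/-- Two different factorisations with second factors `a` and `a⁻¹`. -/
theorem claimB {H : Set G} {K : Subgroup G} {a t : G} (ha2 : a * a ∉ K)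
    (h3 : (a ^ 3 ∈ H ∨ (a ^ 3)⁻¹ ∈ H) → a ^ 4 = 1) (ht : t ≠ 1)
    {p q : G} (hp : a * p = t) (hq : a⁻¹ * q = t) (hpH : p ∈ H ∨ p⁻¹ ∈ H) (hqH : q ∈ H ∨ q⁻¹ ∈ H)
    (hpK : p ∈ K ∨ p = a ∨ p = a⁻¹) (hqK : q ∈ K ∨ q = a ∨ q = a⁻¹) :
    t = a * a ∧ a ^ 4 = 1 := by
  have hp' : p = a⁻¹ * t := by rw [← hp, inv_mul_cancel_left]
  have hq' : q = a * t := by rw [← hq, mul_inv_cancel_left]
  have case1 : t = a * a → a ^ 4 = 1 := by
    intro h
    apply h3
    apply cube_mem
    rw [hq', h, ← mul_assoc] at hqH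
    exact hqH
  have case2 : t = a⁻¹ * a⁻¹ → a ^ 4 = 1 := by
    intro h
    apply h3
    apply inv_cube_mem
    rw [hp', h, ← mul_assoc] at hpH
    exact hpH
  have case2' : t = a⁻¹ * a⁻¹ → t = a * a := by
    intro h
    have h4 := case2 h
    have h5 : a ^ 4 = a * a * (a * a) := by rw [← pow_two, ← pow_two, ← pow_mul]
    rw [h5] at h4
    rw [h, ← mul_inv_rev]
    exact inv_eq_of_mul_eq_one_left h4
  rcases hpK with h | h | h
  · rcases hqK with h' | h' | h'
    · exfalso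
      apply ha2
      have : a * a = q * p⁻¹ := by rw [hp', hq']; group
      rw [this]
      exact K.mul_mem h' (K.inv_mem h)
    · exfalso
      apply ht
      rw [← hq, h', inv_mul_cancel]
    · have : t = a⁻¹ * a⁻¹ := by rw [← hq, h']
      exact ⟨case2' this, case2 this⟩
  · have : t = a * a := by rw [← hp, h]
    exact ⟨this, case1 this⟩
  · exfalso
    apply ht
    rw [← hp, h, mul_inv_cancel]

theorem a_cube {a : G} (h : a ^ 4 = 1) : a * (a * a) = a⁻¹ := by
  have h5 : a ^ 4 = a * (a * a) * a := by rw [← mul_assoc, ← pow_two, ← pow_succ, ← pow_succ]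
  rw [h5] at h
  exact eq_inv_of_mul_eq_one_left h

/-- The group theoretic core. -/
theorem core {H : Set G} {K : Subgroup G} {a t : G} (ha : a ∉ K) (ha2 : a * a ∉ K)
    (h3 : (a ^ 3 ∈ H ∨ (a ^ 3)⁻¹ ∈ H) → a ^ 4 = 1) (ht : t ≠ 1)
    (s s' : Fin 3 → G) (hs : ∀ i, s' i * s i = t) (hinj : Function.Injective s)
    (hsH : ∀ i, s i ∈ H ∨ (s i)⁻¹ ∈ H) (hs'H : ∀ i, s' i ∈ H ∨ (s' i)⁻¹ ∈ H)
    (hsK : ∀ i, s i ∈ K ∨ s i = a ∨ s i = a⁻¹) (hs'K : ∀ i, s' i ∈ K ∨ s' i = a ∨ s' i = a⁻¹)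
    (hnot : ∃ i, s i ∉ K ∨ s' i ∉ K) : False := by
  have ha' : a⁻¹ ∉ K := fun h => ha ((K.inv_mem_iff).mp h)
  have hinj' : ∀ i j, s' i = s' j → i = j := by
    intro i j hij
    apply hinj
    have h1 := hs i
    have h2 := hs j
    rw [← h2, hij] at h1
    exact mul_left_cancel h1
  -- `t` is not in `K`
  have htK : t ∉ K := by
    obtain ⟨i, hi⟩ := hnot
    intro htK
    rw [← hs i] at htK
    rcases hsK i with h | h | h
    · have : s' i ∈ K := (K.mul_mem_cancel_right h).mp htK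
      rcases hi with h' | h'
      · exact h' h
      · exact h' this
    · rcases hs'K i with h' | h' | h'
      · rw [h] at htK
        exact ha ((K.mul_mem_cancel_left h').mp htK)
      · rw [h, h'] at htK
        exact ha2 htK
      · apply ht
        rw [← hs i, h, h', inv_mul_cancel]
    · rcases hs'K i with h' | h' | h'
      · rw [h] at htK
        exact ha' ((K.mul_mem_cancel_left h').mp htK)
      · apply ht
        rw [← hs i, h, h', mul_inv_cancel]
      · rw [h, h', ← mul_inv_rev] at htK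
        exact ha2 (K.inv_mem_iff.mp htK)
  have hcase : ∀ i, s i = a ∨ s i = a⁻¹ ∨ s' i = a ∨ s' i = a⁻¹ := by
    intro i
    rcases hsK i with h | h | h
    · rcases hs'K i with h' | h' | h'
      · exact absurd (hs i ▸ K.mul_mem h' h) htK
      · exact Or.inr (Or.inr (Or.inl h'))
      · exact Or.inr (Or.inr (Or.inr h'))
    · exact Or.inl h
    · exact Or.inr (Or.inl h)
  -- two indices with `s` values `a` and `a⁻¹`
  have hA : ∀ i j k, i ≠ k → j ≠ k → s i = a → s j = a⁻¹ → False := by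
    intro i j k hik hjk hi hj
    obtain ⟨h1, h2⟩ := claimA ha2 h3 ht (hi ▸ hs i) (hj ▸ hs j) (hs'H i) (hs'H j) (hs'K i) (hs'K j)
    have hk := hs k
    rcases hcase k with h | h | h | h
    · exact hik (hinj (hi.trans h.symm))
    · exact hjk (hinj (hj.trans h.symm))
    · apply hik
      apply hinj
      rw [hi]
      rw [h, h1] at hk
      exact (mul_left_cancel hk).symm
    · apply hjk
      apply hinj
      rw [hj]
      rw [h, h1] at hk
      have h4 : s k = a * (a * a) := by rw [← hk, mul_inv_cancel_left]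
      rw [h4, a_cube h2]
  have hB : ∀ i j k, i ≠ k → j ≠ k → s' i = a → s' j = a⁻¹ → False := by
    intro i j k hik hjk hi hj
    obtain ⟨h1, h2⟩ := claimB ha2 h3 ht (hi ▸ hs i) (hj ▸ hs j) (hsH i) (hsH j) (hsK i) (hsK j)
    have hk := hs k
    rcases hcase k with h | h | h | h
    · apply hik
      apply hinj'
      rw [hi]
      rw [h, h1] at hk
      exact (mul_right_cancel hk).symm
    · apply hjk
      apply hinj'
      rw [hj]
      rw [h, h1] at hk
      have h4 : s' k = a * a * a := by rw [← hk, inv_mul_cancel_right]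
      rw [h4, mul_assoc, a_cube h2]
    · exact hik (hinj' _ _ (hi.trans h.symm))
    · exact hjk (hinj' _ _ (hj.trans h.symm))
  have h01 : (0 : Fin 3) ≠ 1 := by decide
  have h02 : (0 : Fin 3) ≠ 2 := by decide
  have h12 : (1 : Fin 3) ≠ 2 := by decide
  rcases hcase 0 with h0 | h0 | h0 | h0 <;> rcases hcase 1 with h1 | h1 | h1 | h1 <;>
    rcases hcase 2 with h2 | h2 | h2 | h2 <;>
    first
    | exact h01 (hinj (h0.trans h1.symm))
    | exact h02 (hinj (h0.trans h2.symm))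
    | exact h12 (hinj (h1.trans h2.symm))
    | exact h01 (hinj' _ _ (h0.trans h1.symm))
    | exact h02 (hinj' _ _ (h0.trans h2.symm))
    | exact h12 (hinj' _ _ (h1.trans h2.symm))
    | exact hA 0 1 2 h02 h12 h0 h1
    | exact hA 1 0 2 h12 h02 h1 h0
    | exact hA 0 2 1 h01 h12.symm h0 h2
    | exact hA 2 0 1 h12.symm h01 h2 h0
    | exact hA 1 2 0 h01.symm h02.symm h1 h2
    | exact hA 2 1 0 h02.symm h01.symm h2 h1
    | exact hB 0 1 2 h02 h12 h0 h1
    | exact hB 1 0 2 h12 h02 h1 h0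
    | exact hB 0 2 1 h01 h12.symm h0 h2
    | exact hB 2 0 1 h12.symm h01 h2 h0
    | exact hB 1 2 0 h01.symm h02.symm h1 h2
    | exact hB 2 1 0 h02.symm h01.symm h2 h1

end Core

theorem mem_of_adj {G : Type u} [Group G] {H : Set G} {x y : G} (h : (cayleyGraph H).Adj x y) :
    y * x⁻¹ ∈ H ∨ (y * x⁻¹)⁻¹ ∈ H := by
  obtain ⟨-, s, hs, h | h⟩ := cayleyGraph_adj.mp h
  · left; rw [h, mul_inv_cancel_right]; exact hs
  · right; rw [h, mul_inv_cancel_right, inv_inv]; exact hs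

/-- In the Cayley graph of such a generating set, no two different vertices have three common
neighbours, if `T₀` is independent modulo the squares and has different squares. -/
theorem SquareSet.no_three {G : Type u} [Group G] {T₀ H : Set G} (hH : SquareSet T₀ H)
    (hT : LinearIndepOn (ZMod 2) (toV (G := G)) T₀) (hSq : SqD T₀) {x x' : G}
    (hx : x ≠ x') (y : Fin 3 → G) (hy : Function.Injective y)
    (h1 : ∀ i, (cayleyGraph H).Adj x (y i)) (h2 : ∀ i, (cayleyGraph H).Adj (y i) x') : False := by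
  classical
  let P : Finset (G × G) := (Finset.univ.image fun i => (x, y i)) ∪ (Finset.univ.image fun i =>
    (y i, x'))
  have hm1 : ∀ i, (x, y i) ∈ P := fun i =>
    Finset.mem_union_left _ (Finset.mem_image.mpr ⟨i, Finset.mem_univ _, rfl⟩)
  have hm2 : ∀ i, (y i, x') ∈ P := fun i =>
    Finset.mem_union_right _ (Finset.mem_image.mpr ⟨i, Finset.mem_univ _, rfl⟩)
  have ht : x' * x⁻¹ ≠ 1 := fun h => hx (mul_inv_eq_one.mp h).symm
  have hprod : ∀ i, x' * (y i)⁻¹ * (y i * x⁻¹) = x' * x⁻¹ := fun i => by group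
  have hinj : Function.Injective fun i => y i * x⁻¹ := fun i j hij => hy (mul_right_cancel hij)
  rcases hH.top_label P ⟨_, hm1 0⟩ (by
    intro q hq
    rcases Finset.mem_union.mp hq with h | h
    · obtain ⟨i, -, rfl⟩ := Finset.mem_image.mp h
      exact h1 i
    · obtain ⟨i, -, rfl⟩ := Finset.mem_image.mp h
      exact h2 i) with hbase | ⟨K, a, ha, ha2, h3, hPK, q, hq, hqK⟩
  · have hconv : ∀ u v h : G, (v = h * u ∨ v = h⁻¹ * u) → (v * u⁻¹ = h ∨ v * u⁻¹ = h⁻¹) := by
      rintro u v h (h' | h')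
      · left; rw [h', mul_inv_cancel_right]
      · right; rw [h', mul_inv_cancel_right]
    refine base_core hT hSq (t := x' * x⁻¹) ht (fun i => y i * x⁻¹) (fun i => x' * (y i)⁻¹) hprod
      hinj (fun i => ?_) (fun i => ?_)
    · obtain ⟨h, hh, h'⟩ := hbase _ (hm1 i)
      exact ⟨h, hh, hconv _ _ _ h'⟩
    · obtain ⟨h, hh, h'⟩ := hbase _ (hm2 i)
      exact ⟨h, hh, hconv _ _ _ h'⟩
  have hconv : ∀ u v : G, (v * u⁻¹ ∈ K ∨ v = a * u ∨ v = a⁻¹ * u) →
      (v * u⁻¹ ∈ K ∨ v * u⁻¹ = a ∨ v * u⁻¹ = a⁻¹) := by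
    rintro u v (h | h | h)
    · exact Or.inl h
    · right; left; rw [h, mul_inv_cancel_right]
    · right; right; rw [h, mul_inv_cancel_right]
  refine core (H := H) (K := K) (a := a) (t := x' * x⁻¹) ha ha2 h3 ht (fun i => y i * x⁻¹)
    (fun i => x' * (y i)⁻¹) hprod hinj (fun i => mem_of_adj (h1 i)) (fun i => mem_of_adj (h2 i))
    (fun i => hconv _ _ (hPK _ (hm1 i))) (fun i => hconv _ _ (hPK _ (hm2 i))) ?_
  rcases Finset.mem_union.mp hq with h | h
  · obtain ⟨i, -, rfl⟩ := Finset.mem_image.mp h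
    exact ⟨i, Or.inl hqK⟩
  · obtain ⟨i, -, rfl⟩ := Finset.mem_image.mp h
    exact ⟨i, Or.inr hqK⟩

end Pool.Agent.Helper1.Cayley
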